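import Pool.Agent.N775.NW.Stm
import Pool.Agent.Y421.NW.Line
import Pool.Agent.Y516.NW.Main

set_option autoImplicit false

/-! Project NW2: time integrals along curves, straight half lines, reversed motions. -/

namespace Pool.Agent.N775.NW

open MeasureTheory Set Filter Topology Pool.Agent.Y516.NW

/-- near a point the time integral of `ψ` along the solution curves is bounded below -/
theorem locC {F : Type} [NormedAddCommGroup F] [NormedSpace ℝ F] (Ω : Set F) (Z : F → F)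
    (ψ : F → ℝ) (hΩ : IsOpen Ω) (hZ : ContinuousOn Z Ω) (hψ : ContinuousOn ψ Ω)
    (hpos : ∀ x ∈ Ω, 0 < ψ x) (x0 : F) (hx0 : x0 ∈ Ω) :
    ∃ V : Set F, IsOpen V ∧ x0 ∈ V ∧ ∃ s1 > 0, ∃ η > 0, ∀ γ : ℝ → F, (∀ t, γ t ∈ Ω) →
      (∀ t, HasDerivAt γ (Z (γ t)) t) → γ 0 ∈ V →
      ∀ τ : ℝ → ℝ, τ 0 = 0 → (∀ t, HasDerivAt τ (ψ (γ t)) t) → ∀ t ≥ s1, η ≤ τ t := by
  have h1 : ∀ᶠ x in 𝓝 x0, x ∈ Ω := hΩ.mem_nhds hx0
  have h2 : ∀ᶠ x in 𝓝 x0, ‖Z x‖ < ‖Z x0‖ + 1 :=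
    ((hZ.continuousAt (hΩ.mem_nhds hx0)).norm).eventually_lt_const (lt_add_one _)
  have h3 : ∀ᶠ x in 𝓝 x0, ψ x0 / 2 < ψ x :=
    (hψ.continuousAt (hΩ.mem_nhds hx0)).eventually_const_lt (by have := hpos x0 hx0; linarith)
  obtain ⟨ρ, hρ, hball⟩ := Metric.eventually_nhds_iff_ball.1 (h1.and (h2.and h3))
  obtain ⟨L, hL⟩ : ∃ L, L = ‖Z x0‖ + 1 := ⟨_, rfl⟩
  have hLp : 0 < L := by rw [hL]; positivity
  have hψ0 := hpos x0 hx0
  obtain ⟨s1, hs1⟩ : ∃ s1, s1 = ρ / (4 * L) := ⟨_, rfl⟩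
  have hs1p : 0 < s1 := by rw [hs1]; positivity
  have hLs : L * s1 < ρ / 2 := by
    rw [hs1]
    have : L * (ρ / (4 * L)) = ρ / 4 := by field_simp
    rw [this]
    linarith
  refine ⟨Metric.ball x0 (ρ / 2), Metric.isOpen_ball, Metric.mem_ball_self (by positivity), s1,
    hs1p, ψ x0 / 2 * s1, by positivity, ?_⟩
  intro γ hγΩ hγd hyb τ hτ0 hτ t ht
  have hcont : Continuous γ :=
    continuous_iff_continuousAt.2 fun s => (hγd s).continuousAt
  have hstay : ∀ s, 0 ≤ s → s ≤ s1 → γ s ∈ Metric.ball x0 ρ := by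
    by_contra hcon
    push Not at hcon
    obtain ⟨s, hs0, hss, hsb⟩ := hcon
    obtain ⟨A, hA⟩ : ∃ A : Set ℝ, A = Icc 0 s1 ∩ {s | ρ ≤ ‖γ s - x0‖} := ⟨_, rfl⟩
    have hcl : IsClosed A := by
      rw [hA]
      exact isClosed_Icc.inter (isClosed_le continuous_const
        ((hcont.sub continuous_const).norm))
    have hne : A.Nonempty := by
      rw [hA]
      refine ⟨s, ⟨hs0, hss⟩, ?_⟩
      rw [mem_ball_iff_norm] at hsb
      exact not_lt.1 hsb
    have hbd : BddBelow A := by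
      rw [hA]
      exact ⟨0, fun x hx => hx.1.1⟩
    have hT := hcl.csInf_mem hne hbd
    obtain ⟨T, hTT⟩ : ∃ T, T = sInf A := ⟨_, rfl⟩
    rw [← hTT] at hT
    have hT2 := hT
    rw [hA] at hT2
    obtain ⟨⟨hT0, hTs⟩, hTρ⟩ := hT2
    have hlow : ∀ u ∈ Ico 0 T, ‖Z (γ u)‖ ≤ L := by
      intro u hu
      have h4 : γ u ∈ Metric.ball x0 ρ := by
        by_contra hc
        have h5 : u ∈ A := by
          rw [hA]
          refine ⟨⟨hu.1, hu.2.le.trans hTs⟩, ?_⟩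
          rw [mem_ball_iff_norm] at hc
          exact not_lt.1 hc
        have h6 := csInf_le hbd h5
        rw [← hTT] at h6
        linarith [hu.2]
      rw [hL]
      exact (hball _ h4).2.1.le
    have h7 := norm_image_sub_le_of_norm_deriv_le_segment' (f := γ)
      (f' := fun s => Z (γ s)) (a := 0) (b := T) (C := L)
      (fun x _ => (hγd x).hasDerivWithinAt) hlow T ⟨hT0, le_rfl⟩
    simp only [sub_zero] at h7
    have h8 : ‖γ 0 - x0‖ < ρ / 2 := by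
      rw [← mem_ball_iff_norm]
      exact hyb
    have h9 : ρ ≤ ‖γ T - x0‖ := hTρ
    have h10 : ‖γ T - x0‖ ≤ ‖γ T - γ 0‖ + ‖γ 0 - x0‖ := by
      have : γ T - x0 = (γ T - γ 0) + (γ 0 - x0) := by abel
      rw [this]
      exact norm_add_le _ _
    have h11 : L * T ≤ L * s1 := by gcongr
    linarith
  have hmono : Monotone τ := by
    apply monotone_of_deriv_nonneg (fun s => (hτ s).differentiableAt)
    intro s
    rw [(hτ s).deriv]
    exact (hpos _ (hγΩ s)).le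
  have h4 : ψ x0 / 2 * s1 ≤ τ s1 := by
    have h5 := Convex.mul_sub_le_image_sub_of_le_deriv (D := Icc 0 s1) (convex_Icc 0 s1)
      (f := τ) (fun s _ => (hτ s).continuousAt.continuousWithinAt)
      (fun s _ => (hτ s).differentiableAt.differentiableWithinAt) (C := ψ x0 / 2) (by
        intro s hs
        rw [interior_Icc] at hs
        rw [(hτ s).deriv]
        exact (hball _ (hstay s hs.1.le hs.2.le)).2.2.le) 0 ⟨le_rfl, hs1p.le⟩ s1 ⟨hs1p.le, le_rfl⟩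
        hs1p.le
    rw [hτ0] at h5
    linarith
  exact h4.trans (hmono ht)

/-- transversal or outgoing -/
def Out (w : ℝ) (X V : E3) : Prop :=
  w ^ 2 * ‖X‖ ^ 2 ≤ gr X V ∨ (2 * w ≤ ‖V‖ ∧ -(‖X‖ * ‖V‖) ≤ 2 * inner ℝ X V)

/-- a straight half line which stays away from the origin -/
theorem line1 (X V : E3) (w : ℝ) (hw : 0 < w) (hX : X ≠ 0) (h : Out w X V) :
    (∀ s : ℝ, 0 ≤ s → w * ‖X‖ ≤ ‖V‖ * ‖X + s • V‖) ∧
    (∀ s : ℝ, 0 ≤ s → s * w ≤ ‖X + s • V‖) ∧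
    ∃ Θ θ : ℝ → ℝ, (∀ s, HasDerivAt Θ (θ s) s) ∧ (∀ s, 0 ≤ s → 1 / ‖X + s • V‖ ^ 2 ≤ θ s) ∧
      ∀ s, Θ s - Θ 0 ≤ Real.pi / (w * ‖X‖) := by
  have hD : 0 < ‖X‖ := norm_pos_iff.2 hX
  rcases h with h | ⟨h1, h2⟩
  · obtain ⟨e1, e2, Θ, e3, e4⟩ := Pool.Agent.Y421.NW.line X V w hw hX h
    refine ⟨fun s _ => e1 s, fun s hs => ?_, Θ, fun s => 1 / ‖X + s • V‖ ^ 2, e3,
      fun s _ => le_rfl, e4⟩
    have := e2 s
    rwa [abs_of_nonneg hs] at this
  · have key : ∀ s : ℝ, 0 ≤ s → (‖X‖ ^ 2 + (s * ‖V‖) ^ 2) / 2 ≤ ‖X + s • V‖ ^ 2 := by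
      intro s hs
      rw [Pool.Agent.Y421.NW.expand]
      have e1 := mul_le_mul_of_nonneg_left h2 hs
      nlinarith [sq_nonneg (‖X‖ - s * ‖V‖)]
    have hV : 0 < ‖V‖ := by linarith
    refine ⟨fun s hs => ?_, fun s hs => ?_, ?_⟩
    · refine (pow_le_pow_iff_left₀ (by positivity) (by positivity) two_ne_zero).1 ?_
      rw [mul_pow, mul_pow]
      have e1 := key s hs
      have e2 : (2 * w) ^ 2 ≤ ‖V‖ ^ 2 := by gcongr
      have e3 : ‖X‖ ^ 2 / 2 ≤ ‖X + s • V‖ ^ 2 := by nlinarith [sq_nonneg (s * ‖V‖)]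
      calc w ^ 2 * ‖X‖ ^ 2 ≤ (2 * w) ^ 2 * (‖X‖ ^ 2 / 2) := by nlinarith [sq_nonneg (w * ‖X‖)]
        _ ≤ ‖V‖ ^ 2 * ‖X + s • V‖ ^ 2 := by gcongr
    · refine (pow_le_pow_iff_left₀ (by positivity) (by positivity) two_ne_zero).1 ?_
      have e1 := key s hs
      have e2 : s * (2 * w) ≤ s * ‖V‖ := by gcongr
      have e3 : (s * (2 * w)) ^ 2 ≤ (s * ‖V‖) ^ 2 := by gcongr
      nlinarith [sq_nonneg (s * w), sq_nonneg ‖X‖]
    · obtain ⟨D, hDe⟩ : ∃ D, D = ‖X‖ := ⟨_, rfl⟩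
      rw [← hDe] at hD ⊢
      refine ⟨fun s => (1 / (w * D)) * Real.arctan (2 * w * s / D),
        fun s => 2 / (D ^ 2 + (2 * w * s) ^ 2), ?_, ?_, ?_⟩
      · intro s
        have e1 : HasDerivAt (fun s : ℝ => 2 * w * s / D) (2 * w / D) s := by
          have e2 := ((hasDerivAt_id s).const_mul (2 * w)).div_const D
          simpa using e2
        have e3 := (e1.arctan).const_mul (1 / (w * D))
        refine e3.congr_deriv ?_
        field_simp
      · intro s hs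
        have e1 := key s hs
        rw [← hDe] at e1
        have e2 : s * (2 * w) ≤ s * ‖V‖ := by gcongr
        have e3 : (s * (2 * w)) ^ 2 ≤ (s * ‖V‖) ^ 2 := by gcongr
        have e4 : (D ^ 2 + (2 * w * s) ^ 2) / 2 ≤ ‖X + s • V‖ ^ 2 := by nlinarith
        have e5 : 0 < (D ^ 2 + (2 * w * s) ^ 2) / 2 := by positivity
        calc 1 / ‖X + s • V‖ ^ 2 ≤ 1 / ((D ^ 2 + (2 * w * s) ^ 2) / 2) := by gcongr
          _ = _ := by field_simp
      · intro s
        have e1 : Real.arctan (2 * w * s / D) ≤ Real.pi := by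
          have := Real.arctan_lt_pi_div_two (2 * w * s / D)
          have := Real.pi_pos
          linarith
        simp only [mul_zero, zero_div, Real.arctan_zero, sub_zero]
        rw [div_mul_eq_mul_div, one_mul]
        gcongr

variable {N : ℕ}

/-- the reversed motion -/
theorem mot_rev {m : Fin N → ℝ} {E : ℝ} {q v : ℝ → Cfg N} {c τ : ℝ → ℝ}
    (h : Mot m E q v c τ) (T : ℝ) :
    Mot m E (fun s => q (T - s)) (fun s i => -v (T - s) i) (fun s => c (T - s))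
      (fun s => τ T - τ (T - s)) := by
  refine ⟨by simp, ?_, fun t => h.cpos _, ?_, ?_, fun t i j hij => h.ne _ i j hij, ?_⟩
  · intro t
    have h1 := ((h.τd (T - t)).comp_const_sub T t).const_sub (τ T)
    simpa using h1
  · intro t i
    have h1 := (h.qd (T - t) i).comp_const_sub T t
    simpa using h1
  · intro t i
    have h1 := ((h.vd (T - t) i).comp_const_sub T t).fun_neg
    simpa using h1
  · intro t
    have h1 := h.en (T - t)
    simpa using h1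

end Pool.Agent.N775.NW
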