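import Pool.Agent.N775.NW.Stm
import Pool.Agent.Y275.NW.Boot

set_option autoImplicit false

/-! Project NW2 (MP_70f7a7_an): the relative velocities of two different pairs of clusters are
independent. -/

namespace Pool.Agent.N775.NW

open Pool.Agent.Y516.NW Pool.Agent.Y275.NW

theorem ex_u {N : ℕ} (i j k l : Fin N) (hij : i ≠ j) (hkl : k ≠ l) (h1 : ¬(i = k ∧ j = l))
    (h2 : ¬(i = l ∧ j = k)) (y z : E3) : ∃ u : Cfg N, u i - u j = y ∧ u k - u l = z := by
  by_cases hl : l ≠ i ∧ l ≠ j
  · obtain ⟨hli, hlj⟩ := hl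
    refine ⟨fun x => if x = i then y else if x = l then (if k = i then y else 0) - z else 0,
      ?_, ?_⟩
    · simp only [if_true, if_neg hij.symm, if_neg hlj.symm, sub_zero]
    · by_cases hk : k = i
      · simp only [if_pos hk, if_neg hli, if_true, sub_sub_cancel]
      · simp only [if_neg hk, if_neg hkl, if_neg hli, if_true, zero_sub, neg_neg]
  · have hk : k ≠ i ∧ k ≠ j := by
      by_cases h3 : l = i
      · refine ⟨fun h => hkl (h.trans h3.symm), fun h => h2 ⟨h3.symm, h.symm⟩⟩
      · have h4 : l = j := by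
          by_contra h4
          exact hl ⟨h3, h4⟩
        refine ⟨fun h => h1 ⟨h.symm, h4.symm⟩, fun h => hkl (h.trans h4.symm)⟩
    obtain ⟨hki, hkj⟩ := hk
    refine ⟨fun x => if x = i then y else if x = k then (if l = i then y else 0) + z else 0,
      ?_, ?_⟩
    · simp only [if_true, if_neg hij.symm, if_neg hkj.symm, sub_zero]
    · by_cases h5 : l = i
      · simp only [if_pos h5, if_neg hki, if_true, add_sub_cancel_left]
      · simp only [if_neg h5, if_neg hkl.symm, if_neg hki, if_true, zero_add, sub_zero]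

theorem surj2 : Surj2Stm := by
  intro n m hm a b hab i j k l hij hkl hd
  obtain ⟨hne, hij1, hij2⟩ := hij
  obtain ⟨hne', hkl1, hkl2⟩ := hkl
  obtain ⟨hd1, hd2⟩ := hd
  have hadd : ∀ (P Q : Fin n → E3) (k : Fin (n + 1)),
      cm m a b (fun k => (m k)⁻¹ • mom (P + Q) k) k =
        cm m a b (fun k => (m k)⁻¹ • mom P k) k + cm m a b (fun k => (m k)⁻¹ • mom Q k) k := by
    intro P Q k
    rw [cm_val hm, cm_val hm, cm_val hm, ← smul_add]
    congr 1
    split_ifs
    · rw [mom_add, mom_add]
      abel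
    · rw [mom_add]
  have hsmul : ∀ (c : ℝ) (P : Fin n → E3) (k : Fin (n + 1)),
      cm m a b (fun k => (m k)⁻¹ • mom (c • P) k) k =
        c • cm m a b (fun k => (m k)⁻¹ • mom P k) k := by
    intro c P k
    rw [cm_val hm, cm_val hm, smul_comm c]
    congr 1
    split_ifs
    · rw [mom_smul, mom_smul, smul_add]
    · rw [mom_smul]
  have hrep : ∀ i j : Fin (n + 1), i ≠ j → ¬(i = a ∧ j = b) → ¬(i = b ∧ j = a) →
      rep a b i ≠ rep a b j := by
    intro i j h1 h2 h3 h4
    unfold rep at h4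
    split_ifs at h4 with h5 h6 h6
    · exact h1 (h5.trans h6.symm)
    · exact h3 ⟨h5, h4.symm⟩
    · exact h2 ⟨h4, h6⟩
    · exact h1 h4
  refine ⟨{ toFun := fun P => (cm m a b (fun k => (m k)⁻¹ • mom P k) i
              - cm m a b (fun k => (m k)⁻¹ • mom P k) j,
              cm m a b (fun k => (m k)⁻¹ • mom P k) k
              - cm m a b (fun k => (m k)⁻¹ • mom P k) l)
            map_add' := ?_
            map_smul' := ?_ }, ?_, fun P => rfl⟩
  · intro P Q
    rw [hadd, hadd, hadd, hadd, Prod.mk_add_mk]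
    congr 1 <;> abel
  · intro c P
    rw [hsmul, hsmul, hsmul, hsmul, RingHom.id_apply, Prod.smul_mk, smul_sub, smul_sub]
  · rintro ⟨y, z⟩
    obtain ⟨u, hu1, hu2⟩ := ex_u (rep a b i) (rep a b j) (rep a b k) (rep a b l)
      (hrep i j hne hij1 hij2) (hrep k l hne' hkl1 hkl2) hd1 hd2 y z
    have hM : 0 < ∑ x, m x := Finset.sum_pos (fun x _ => hm x) ⟨i, Finset.mem_univ _⟩
    obtain ⟨c, hc⟩ : ∃ c : E3, c = (∑ x, m x)⁻¹ • ∑ x, m x • u (rep a b x) := ⟨_, rfl⟩
    obtain ⟨v, hv⟩ : ∃ v : Cfg (n + 1), v = fun x => u (rep a b x) - c := ⟨_, rfl⟩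
    obtain ⟨p, hp⟩ : ∃ p : Cfg (n + 1), p = fun x => m x • v x := ⟨_, rfl⟩
    have hsum : ∑ x, p x = 0 := by
      rw [hp, hv]
      simp only [smul_sub, Finset.sum_sub_distrib, ← Finset.sum_smul]
      rw [hc, smul_smul, mul_inv_cancel₀ hM.ne', one_smul, sub_self]
    have hvel : (fun x => (m x)⁻¹ • p x) = v := by
      funext x
      rw [hp]
      simp only [smul_smul]
      rw [inv_mul_cancel₀ (hm x).ne', one_smul]
    have hva : v a = v b := by
      rw [hv]
      simp [rep, hab]
    have hcm : ∀ x, cm m a b v x = v x := by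
      intro x
      unfold cm
      split_ifs with h
      · have h1 := hm a
        have h2 := hm b
        have h3 : v x = v a := by
          rcases h with h | h
          · rw [h]
          · rw [h, hva]
        rw [h3, ← hva, ← add_smul, smul_smul, inv_mul_cancel₀ (by positivity), one_smul]
      · rfl
    refine ⟨fun k => p k.castSucc, ?_⟩
    change (cm m a b (fun k => (m k)⁻¹ • mom (fun k : Fin n => p k.castSucc) k) i -
      cm m a b (fun k => (m k)⁻¹ • mom (fun k : Fin n => p k.castSucc) k) j,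
      cm m a b (fun k => (m k)⁻¹ • mom (fun k : Fin n => p k.castSucc) k) k -
      cm m a b (fun k => (m k)⁻¹ • mom (fun k : Fin n => p k.castSucc) k) l) = (y, z)
    rw [mom_of_sum p hsum, hvel, hcm, hcm, hcm, hcm, hv]
    simp only [sub_sub_sub_cancel_right]
    rw [hu1, hu2]

end Pool.Agent.N775.NW
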