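import Pool.Agent.N775.NW.Wand
import Pool.Agent.N775.NW.Surj
import Pool.Agent.N775.NW.Push
import Pool.Agent.Y516.NW.Fin

set_option autoImplicit false

/-! Project NW2: the proportion of nonwandering momenta, with the exponent `3 / 2`. -/

namespace Pool.Agent.N775.NW

open MeasureTheory Set Pool.Agent.Y516.NW

variable {N : ℕ}

theorem cm_rep (m : Fin N → ℝ) (a b i : Fin N) (u : Cfg N) :
    cm m a b u (rep a b i) = cm m a b u i := by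
  unfold rep
  split_ifs with h
  · rw [h, cm_ab]
  · rfl

theorem not_diff (m : Fin N → ℝ) (a b i j k l : Fin N) (h : ¬ Diff a b i j k l) (u u' : Cfg N) :
    inner ℝ (cm m a b u k - cm m a b u l) (cm m a b u' k - cm m a b u' l) =
      inner ℝ (cm m a b u i - cm m a b u j) (cm m a b u' i - cm m a b u' j) := by
  unfold Diff at h
  rw [not_and_or, not_not, not_not] at h
  have e : ∀ x : Fin N, ∀ u : Cfg N, cm m a b u x = cm m a b u (rep a b x) :=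
    fun x u => (cm_rep m a b x u).symm
  rcases h with ⟨h1, h2⟩ | ⟨h1, h2⟩
  · rw [e k u, e l u, e k u', e l u', ← h1, ← h2, cm_rep, cm_rep, cm_rep, cm_rep]
  · rw [e k u, e l u, e k u', e l u', ← h1, ← h2, cm_rep, cm_rep, cm_rep, cm_rep]
    rw [← inner_neg_neg, neg_sub, neg_sub]

/-- a slow pair of clusters -/
theorem slow {n : ℕ} (V : (Fin n → E3) →ₗ[ℝ] E3) (hV : Function.Surjective V) (R : ℝ) :
    ∃ C : ℝ, 0 ≤ C ∧ ∀ s : ℝ, 0 ≤ s →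
      volume {P : Fin n → E3 | ‖P‖ ≤ R ∧ ‖V P‖ < s} ≤ ENNReal.ofReal (C * s ^ 3) := by
  obtain ⟨C1, hC1, h1⟩ := Pool.Agent.Y407.NW.push n V hV R
  obtain ⟨β, hβ⟩ : ∃ β, β = volume (Metric.ball (0 : E3) 1) := ⟨_, rfl⟩
  have hβt : β ≠ ⊤ := by rw [hβ]; exact measure_ball_lt_top.ne
  have hβr : β = ENNReal.ofReal β.toReal := (ENNReal.ofReal_toReal hβt).symm
  have hfr : Module.finrank ℝ E3 = 3 := finrank_euclideanSpace_fin
  refine ⟨C1 * β.toReal, mul_nonneg hC1 ENNReal.toReal_nonneg, fun s hs => ?_⟩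
  have h2 := h1 (Metric.ball 0 s)
  have h3 : {P : Fin n → E3 | ‖P‖ ≤ R ∧ ‖V P‖ < s} =
      {P : Fin n → E3 | ‖P‖ ≤ R ∧ V P ∈ Metric.ball 0 s} := by
    ext P
    simp only [Metric.mem_ball, dist_zero_right]
  rw [h3]
  refine h2.trans ?_
  have h4 : volume (Metric.ball (0 : E3) s) = ENNReal.ofReal (s ^ 3) * β := by
    rw [Measure.addHaar_ball _ _ hs, hfr, ← hβ]
  rw [h4, hβr, ← ENNReal.ofReal_mul (by positivity), ← ENNReal.ofReal_mul hC1,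
    ENNReal.toReal_ofReal ENNReal.toReal_nonneg]
  apply ENNReal.ofReal_le_ofReal
  exact le_of_eq (by ring)

/-- two thin cylinders -/
theorem slab2 {n : ℕ} (V : (Fin n → E3) →ₗ[ℝ] E3 × E3) (hV : Function.Surjective V) (R : ℝ)
    (hR : 0 < R) :
    ∃ C : ℝ, 0 ≤ C ∧ ∀ X Y : E3, X ≠ 0 → Y ≠ 0 → ∀ t : ℝ, 0 ≤ t →
      volume {P : Fin n → E3 | ‖P‖ ≤ R ∧ gr X (V P).1 < t * ‖X‖ ^ 2 ∧
        gr Y (V P).2 < t * ‖Y‖ ^ 2} ≤ ENNReal.ofReal (C * t ^ 2) := by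
  obtain ⟨C1, hC1, h1⟩ := push2 n V hV R
  set L := LinearMap.toContinuousLinearMap V with hL
  obtain ⟨C2, hC2, h2⟩ := Pool.Agent.Y407.NW.cyl (‖L‖ * R + 1) (by positivity)
  refine ⟨C1 * (C2 * C2), mul_nonneg hC1 (mul_nonneg hC2 hC2), fun X Y hX hY t ht => ?_⟩
  have h3 := h1 {v : E3 | ‖v‖ ≤ ‖L‖ * R + 1 ∧ gr X v < t * ‖X‖ ^ 2}
    {v : E3 | ‖v‖ ≤ ‖L‖ * R + 1 ∧ gr Y v < t * ‖Y‖ ^ 2}
  refine (measure_mono ?_).trans (h3.trans ?_)
  · rintro P ⟨hP1, hP2, hP3⟩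
    have h4 : ‖L P‖ ≤ ‖L‖ * ‖P‖ := L.le_opNorm P
    have h5 : ‖L‖ * ‖P‖ ≤ ‖L‖ * R := by gcongr
    have h6 : L P = V P := rfl
    rw [h6] at h4
    have h7 := norm_fst_le (V P)
    have h8 := norm_snd_le (V P)
    exact ⟨hP1, ⟨by linarith, hP2⟩, ⟨by linarith, hP3⟩⟩
  · have e1 := h2 X hX t ht
    have e2 := h2 Y hY t ht
    calc ENNReal.ofReal C1 * (volume {v : E3 | ‖v‖ ≤ ‖L‖ * R + 1 ∧ gr X v < t * ‖X‖ ^ 2} *
          volume {v : E3 | ‖v‖ ≤ ‖L‖ * R + 1 ∧ gr Y v < t * ‖Y‖ ^ 2})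
        ≤ ENNReal.ofReal C1 * (ENNReal.ofReal (C2 * t) * ENNReal.ofReal (C2 * t)) := by gcongr
      _ = ENNReal.ofReal (C1 * (C2 * C2) * t ^ 2) := by
          rw [← ENNReal.ofReal_mul (by positivity), ← ENNReal.ofReal_mul hC1]
          congr 1
          ring

end Pool.Agent.N775.NW
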