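import Pool.Agent.N775.NW.Fin

set_option autoImplicit false

/-! Project NW2: the proportion of nonwandering momenta, with the exponent `3 / 2`. -/

namespace Pool.Agent.N775.NW

open MeasureTheory Set Pool.Agent.Y516.NW

/-- relative velocities of the clusters for the momenta `P` -/
noncomputable def rv {n : ℕ} (m : Fin (n + 1) → ℝ) (a b : Fin (n + 1)) (P : Fin n → E3)
    (i j : Fin (n + 1)) : E3 :=
  cm m a b (fun k => (m k)⁻¹ • mom P k) i - cm m a b (fun k => (m k)⁻¹ • mom P k) j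

theorem slowC (n : ℕ) (m : Fin (n + 1) → ℝ) (hm : ∀ i, 0 < m i) (R : ℝ) :
    ∃ C : ℝ, 0 ≤ C ∧ ∀ a b i j : Fin (n + 1), a ≠ b → P2 a b i j → ∀ s : ℝ, 0 ≤ s →
      volume {P : Fin n → E3 | ‖P‖ ≤ R ∧ ‖rv m a b P i j‖ < s} ≤ ENNReal.ofReal (C * s ^ 3) := by
  have hch : ∀ p : Fin (n + 1) × Fin (n + 1) × Fin (n + 1) × Fin (n + 1), ∃ C : ℝ, 0 ≤ C ∧
      (p.1 ≠ p.2.1 → P2 p.1 p.2.1 p.2.2.1 p.2.2.2 → ∀ s : ℝ, 0 ≤ s →
      volume {P : Fin n → E3 | ‖P‖ ≤ R ∧ ‖rv m p.1 p.2.1 P p.2.2.1 p.2.2.2‖ < s} ≤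
        ENNReal.ofReal (C * s ^ 3)) := by
    rintro ⟨a, b, i, j⟩
    by_cases hab : a ≠ b ∧ P2 a b i j
    · obtain ⟨V, hV, hVe⟩ := Pool.Agent.Y275.NW.surj n m hm a b hab.1 i j hab.2
      obtain ⟨C, hC, h⟩ := slow V hV R
      refine ⟨C, hC, fun _ _ s hs => ?_⟩
      have := h s hs
      unfold rv
      simpa only [hVe] using this
    · exact ⟨0, le_rfl, fun h1 h2 => absurd ⟨h1, h2⟩ hab⟩
  choose Cf hCf0 hCf using hch
  refine ⟨∑ p, Cf p, Finset.sum_nonneg fun p _ => hCf0 p, fun a b i j hab hP s hs => ?_⟩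
  refine (hCf (a, b, i, j) hab hP s hs).trans (ENNReal.ofReal_le_ofReal ?_)
  refine mul_le_mul_of_nonneg_right ?_ (by positivity)
  exact Finset.single_le_sum (f := Cf) (fun p _ => hCf0 p) (Finset.mem_univ _)

theorem slabC (n : ℕ) (m : Fin (n + 1) → ℝ) (hm : ∀ i, 0 < m i) (R : ℝ) (hR : 0 < R) :
    ∃ C : ℝ, 0 ≤ C ∧ ∀ a b i j k l : Fin (n + 1), a ≠ b → P2 a b i j → P2 a b k l →
      Diff a b i j k l → ∀ X Y : E3, X ≠ 0 → Y ≠ 0 → ∀ t : ℝ, 0 ≤ t →
      volume {P : Fin n → E3 | ‖P‖ ≤ R ∧ gr X (rv m a b P i j) < t * ‖X‖ ^ 2 ∧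
        gr Y (rv m a b P k l) < t * ‖Y‖ ^ 2} ≤ ENNReal.ofReal (C * t ^ 2) := by
  have hch : ∀ p : (Fin (n + 1) × Fin (n + 1)) × (Fin (n + 1) × Fin (n + 1)) ×
      (Fin (n + 1) × Fin (n + 1)), ∃ C : ℝ, 0 ≤ C ∧
      (p.1.1 ≠ p.1.2 → P2 p.1.1 p.1.2 p.2.1.1 p.2.1.2 → P2 p.1.1 p.1.2 p.2.2.1 p.2.2.2 →
        Diff p.1.1 p.1.2 p.2.1.1 p.2.1.2 p.2.2.1 p.2.2.2 →
        ∀ X Y : E3, X ≠ 0 → Y ≠ 0 → ∀ t : ℝ, 0 ≤ t →
      volume {P : Fin n → E3 | ‖P‖ ≤ R ∧
        gr X (rv m p.1.1 p.1.2 P p.2.1.1 p.2.1.2) < t * ‖X‖ ^ 2 ∧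
        gr Y (rv m p.1.1 p.1.2 P p.2.2.1 p.2.2.2) < t * ‖Y‖ ^ 2} ≤
          ENNReal.ofReal (C * t ^ 2)) := by
    rintro ⟨⟨a, b⟩, ⟨i, j⟩, ⟨k, l⟩⟩
    by_cases hab : a ≠ b ∧ P2 a b i j ∧ P2 a b k l ∧ Diff a b i j k l
    · obtain ⟨h1, h2, h3, h4⟩ := hab
      obtain ⟨V, hV, hVe⟩ := surj2 n m hm a b h1 i j k l h2 h3 h4
      obtain ⟨C, hC, h⟩ := slab2 V hV R hR
      refine ⟨C, hC, fun _ _ _ _ X Y hX hY t ht => ?_⟩
      have := h X Y hX hY t ht
      unfold rv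
      simpa only [hVe] using this
    · exact ⟨0, le_rfl, fun h1 h2 h3 h4 => absurd ⟨h1, h2, h3, h4⟩ hab⟩
  choose Cf hCf0 hCf using hch
  refine ⟨∑ p, Cf p, Finset.sum_nonneg fun p _ => hCf0 p,
    fun a b i j k l h1 h2 h3 h4 X Y hX hY t ht => ?_⟩
  refine (hCf ((a, b), (i, j), (k, l)) h1 h2 h3 h4 X Y hX hY t ht).trans
    (ENNReal.ofReal_le_ofReal ?_)
  refine mul_le_mul_of_nonneg_right ?_ (by positivity)
  exact Finset.single_le_sum (f := Cf) (fun p _ => hCf0 p) (Finset.mem_univ _)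

theorem kin_pos {n : ℕ} (m : Fin (n + 1) → ℝ) (hm : ∀ i, 0 < m i) (P : Fin n → E3)
    (a b i j : Fin (n + 1)) (h : rv m a b P i j ≠ 0) : 0 < kin m (mom P) := by
  have hkin0 : 0 ≤ kin m (mom P) := Finset.sum_nonneg fun i _ => by
    have := hm i; positivity
  refine lt_of_le_of_ne hkin0 fun h0 => h ?_
  have hz : ∀ i, mom P i = 0 := by
    intro i
    have h1 := (Finset.sum_eq_zero_iff_of_nonneg (fun i _ => by
      have := hm i; positivity)).mp h0.symm i (Finset.mem_univ i)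
    have h2 : ‖mom P i‖ ^ 2 = 0 := by
      rcases div_eq_zero_iff.mp h1 with h | h
      · exact h
      · have := hm i; linarith
    exact norm_eq_zero.mp (pow_eq_zero_iff (by norm_num) |>.mp h2)
  have h4 : (fun k => (m k)⁻¹ • mom P k) = fun _ => (0 : E3) := by
    funext k; rw [hz k, smul_zero]
  unfold rv
  rw [h4]
  unfold cm; simp

theorem main_neg (n : ℕ) (hn : 2 ≤ n) (m : Fin (n + 1) → ℝ) (hm : ∀ i, 0 < m i) :
    ∃ C : ℝ, 0 < C ∧ ∀ E : ℝ, E ≤ 0 →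
      ∀ (ψ : Cfg (n + 1) × Cfg (n + 1) → ℝ)
        (φ : ℝ → Cfg (n + 1) × Cfg (n + 1) → Cfg (n + 1) × Cfg (n + 1)), IsFl m E ψ φ →
      ∀ q : Cfg (n + 1), (∀ i j, i ≠ j → q i ≠ q j) → ∑ i, m i • q i = 0 →
      ∀ a b : Fin (n + 1), a ≠ b → ∀ δ : ℝ, 0 < δ → (∀ i j, P2 a b i j → δ ≤ ‖q i - q j‖) →
      0 < pot m q + E →
      volume {P : Fin n → E3 | kin m (mom P) ≤ 1 ∧ NonW (Surf m E) φ
          (q, Real.sqrt ((pot m q + E) / kin m (mom P)) • mom P)} ≤
        ENNReal.ofReal (Real.sqrt (C / (δ * (pot m q + E))) ^ 3) *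
          volume {P : Fin n → E3 | kin m (mom P) ≤ 1} := by
  obtain ⟨μ, hμ, hμm⟩ : ∃ μ : ℝ, 0 < μ ∧ ∀ i, μ ≤ m i := by
    obtain ⟨μi, _, hμi⟩ := Finset.exists_min_image Finset.univ m ⟨0, Finset.mem_univ _⟩
    exact ⟨m μi, hm μi, fun i => hμi i (Finset.mem_univ _)⟩
  obtain ⟨M, hMdef⟩ : ∃ M : ℝ, M = ∑ i, m i := ⟨_, rfl⟩
  have hM : 0 < M := by
    rw [hMdef]; exact Finset.sum_pos (fun i _ => hm i) ⟨0, Finset.mem_univ _⟩
  obtain ⟨R, hR, hRb, hvol⟩ := Pool.Agent.Y317.NW.ball n m hm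
  obtain ⟨C1, hC1, hslow⟩ := slowC n m hm R
  obtain ⟨C2, hC2, hslab⟩ := slabC n m hm R hR
  obtain ⟨v0, hv0pos, hv0le⟩ : ∃ v0 : ℝ, 0 < v0 ∧
      ENNReal.ofReal v0 ≤ volume {P : Fin n → E3 | kin m (mom P) ≤ 1} := by
    have hmin : min (volume {P : Fin n → E3 | kin m (mom P) ≤ 1}) 1 ≠ ⊤ :=
      ne_top_of_le_ne_top ENNReal.one_ne_top (min_le_right _ _)
    refine ⟨(min (volume {P : Fin n → E3 | kin m (mom P) ≤ 1}) 1).toReal, ?_, ?_⟩
    · exact ENNReal.toReal_pos (lt_min hvol one_pos).ne' hmin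
    · rw [ENNReal.ofReal_toReal hmin]
      exact min_le_left _ _
  obtain ⟨A, hA⟩ : ∃ A : ℝ, A = M + M ^ 2 / μ := ⟨_, rfl⟩
  have hApos : 0 < A := by
    rw [hA]; have : 0 ≤ M ^ 2 / μ := div_nonneg (sq_nonneg _) hμ.le
    linarith
  obtain ⟨C3, hC3⟩ : ∃ C3 : ℝ, C3 = ((n : ℝ) + 1) ^ 2 * C1 + ((n : ℝ) + 1) ^ 4 * C2 := ⟨_, rfl⟩
  have hC3p : 0 ≤ C3 := by rw [hC3]; positivity
  obtain ⟨C, hC⟩ : ∃ C : ℝ, C = 64000 * A * (C3 / v0 + 1) + 256 * M ^ 2 := ⟨_, rfl⟩
  have hCpos : 0 < C := by rw [hC]; positivity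
  refine ⟨C, hCpos, ?_⟩
  intro E hE ψ φ hφ q hq hcen a b hab δ hδ hδq hK
  obtain ⟨K, hKdef⟩ : ∃ K : ℝ, K = pot m q + E := ⟨_, rfl⟩
  rw [← hKdef] at hK ⊢
  have hC64 : 64000 * A ≤ C := by
    rw [hC]
    have h1 : 0 ≤ C3 / v0 := div_nonneg hC3p hv0pos.le
    nlinarith [mul_nonneg hApos.le h1, sq_nonneg M]
  have hC256 : 256 * M ^ 2 ≤ C := by
    rw [hC]
    have h1 : 0 ≤ C3 / v0 := div_nonneg hC3p hv0pos.le
    nlinarith [mul_nonneg hApos.le h1]
  by_cases hbig : δ * K < C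
  · -- trivial bound
    refine (measure_mono (fun P hP => hP.1)).trans ?_
    have h1 : 1 ≤ Real.sqrt (C / (δ * K)) := by
      rw [Real.one_le_sqrt, le_div_iff₀ (by positivity)]
      linarith
    calc volume {P : Fin n → E3 | kin m (mom P) ≤ 1}
        = 1 * volume {P : Fin n → E3 | kin m (mom P) ≤ 1} := (one_mul _).symm
      _ ≤ _ := by
          gcongr
          rw [← ENNReal.ofReal_one]
          exact ENNReal.ofReal_le_ofReal (one_le_pow₀ h1)
  push Not at hbig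
  -- the tight pair
  have hab0 : 0 < ‖q a - q b‖ := norm_pos_iff.mpr (sub_ne_zero.mpr (hq a b hab))
  have hr : ‖q a - q b‖ ≤ δ / 128 := by
    have h1 := Pool.Agent.Y421.NW.pot (q := q) hm hab (d := 4 * δ) (by positivity)
      (fun i j h => by have := hδq i j h; linarith)
    have h2 : pot m q = ∑ i, ∑ j, m i * m j / ‖q i - q j‖ / 2 := rfl
    rw [← h2, ← hMdef] at h1
    have h3 : 2 * M ^ 2 / (4 * δ) ≤ K / 512 := by
      rw [div_le_div_iff₀ (by positivity) (by norm_num)]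
      nlinarith
    have h4 : K / 2 ≤ m a * m b / ‖q a - q b‖ := by
      have : K ≤ pot m q := by linarith
      linarith
    rw [le_div_iff₀ hab0] at h4
    have h5 : m a * m b ≤ M ^ 2 := by
      have e1 : m a ≤ M := hMdef ▸ Finset.single_le_sum (fun i _ => (hm i).le) (Finset.mem_univ a)
      have e2 : m b ≤ M := hMdef ▸ Finset.single_le_sum (fun i _ => (hm i).le) (Finset.mem_univ b)
      have := mul_le_mul e1 e2 (hm b).le hM.le
      nlinarith
    have h6 : K * ‖q a - q b‖ * 128 ≤ K * δ := by nlinarith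
    have h7 : K * (‖q a - q b‖ * 128) ≤ K * δ := by linarith
    have := le_of_mul_le_mul_left h7 hK
    linarith
  have hXge : ∀ i j, P2 a b i j → δ / 2 ≤ ‖cm m a b q i - cm m a b q j‖ := by
    intro i j hP
    have e3 := near m hm a b q i
    have e4 := near m hm a b q j
    have e5 := hδq i j hP
    have e6 : ‖q i - q j‖ ≤ ‖q i - cm m a b q i‖ + ‖cm m a b q i - cm m a b q j‖
        + ‖q j - cm m a b q j‖ := by
      have : q i - q j = (q i - cm m a b q i) + (cm m a b q i - cm m a b q j)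
          + -(q j - cm m a b q j) := by abel
      calc ‖q i - q j‖ = ‖(q i - cm m a b q i) + (cm m a b q i - cm m a b q j)
          + -(q j - cm m a b q j)‖ := by rw [← this]
        _ ≤ ‖(q i - cm m a b q i) + (cm m a b q i - cm m a b q j)‖
          + ‖-(q j - cm m a b q j)‖ := norm_add_le _ _
        _ ≤ _ := by rw [norm_neg]; gcongr; exact norm_add_le _ _
    linarith
  have hXne : ∀ i j, P2 a b i j → cm m a b q i - cm m a b q j ≠ 0 := by
    intro i j hP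
    have := hXge i j hP
    exact norm_pos_iff.mp (by linarith)
  obtain ⟨w2, hw2⟩ : ∃ w2 : ℝ, w2 = 64000 * A / δ := ⟨_, rfl⟩
  have hw2pos : 0 < w2 := by rw [hw2]; positivity
  obtain ⟨t, ht⟩ : ∃ t : ℝ, t = w2 / K := ⟨_, rfl⟩
  have htpos : 0 < t := by rw [ht]; positivity
  have htK : w2 = K * t := by rw [ht]; field_simp
  have ht1 : t ≤ 1 := by
    rw [ht, hw2, div_div, div_le_one (by positivity)]
    linarith
  -- inclusion
  have hincl : {P : Fin n → E3 | kin m (mom P) ≤ 1 ∧ NonW (Surf m E) φ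
      (q, Real.sqrt (K / kin m (mom P)) • mom P)} ⊆
      (⋃ p : Fin (n + 1) × Fin (n + 1), {P | P2 a b p.1 p.2 ∧ ‖P‖ ≤ R ∧
        ‖rv m a b P p.1 p.2‖ < Real.sqrt t}) ∪
      ⋃ p : (Fin (n + 1) × Fin (n + 1)) × (Fin (n + 1) × Fin (n + 1)),
        {P | (P2 a b p.1.1 p.1.2 ∧ P2 a b p.2.1 p.2.2 ∧ Diff a b p.1.1 p.1.2 p.2.1 p.2.2) ∧
          ‖P‖ ≤ R ∧
          gr (cm m a b q p.1.1 - cm m a b q p.1.2) (rv m a b P p.1.1 p.1.2) <
            t * ‖cm m a b q p.1.1 - cm m a b q p.1.2‖ ^ 2 ∧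
          gr (cm m a b q p.2.1 - cm m a b q p.2.2) (rv m a b P p.2.1 p.2.2) <
            t * ‖cm m a b q p.2.1 - cm m a b q p.2.2‖ ^ 2} := by
    rintro P ⟨hP1, hP2⟩
    by_contra hcon
    rw [mem_union, not_or, mem_iUnion, mem_iUnion, not_exists, not_exists] at hcon
    obtain ⟨hn1, hn2⟩ := hcon
    have hfast : ∀ i j, P2 a b i j → Real.sqrt t ≤ ‖rv m a b P i j‖ := by
      intro i j hP
      by_contra hlt
      push Not at hlt
      exact hn1 (i, j) ⟨hP, hRb P hP1, hlt⟩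
    obtain ⟨c, hac⟩ := exists_P2 hn a b
    have hkin : 0 < kin m (mom P) := by
      refine kin_pos m hm P a b a c ?_
      have h1 := hfast a c hac
      have h2 : 0 < Real.sqrt t := Real.sqrt_pos.2 htpos
      exact norm_pos_iff.1 (by linarith)
    obtain ⟨s, hs⟩ : ∃ s : ℝ, s = Real.sqrt (K / kin m (mom P)) := ⟨_, rfl⟩
    rw [← hs] at hP2
    have hs0 : 0 ≤ s := by rw [hs]; exact Real.sqrt_nonneg _
    have hs2 : s ^ 2 = K / kin m (mom P) := by
      rw [hs]; exact Real.sq_sqrt (div_nonneg hK.le hkin.le)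
    have hs2K : K ≤ s ^ 2 := by
      rw [hs2, le_div_iff₀ hkin]
      nlinarith
    have hvel : vel m (q, s • mom P) = fun k => s • ((m k)⁻¹ • mom P k) := by
      funext k
      simp only [vel, Pi.smul_apply]
      rw [smul_comm]
    have hsurf : (q, s • mom P) ∈ Surf m E := by
      refine ⟨hq, hcen, ?_, ?_⟩
      · have : ∑ i, (s • mom P) i = s • ∑ i, mom P i := by
          rw [Finset.smul_sum]; rfl
        rw [this, mom_sum, smul_zero]
      · have h1 : ∑ i, ‖(s • mom P) i‖ ^ 2 / (2 * m i) = s ^ 2 * kin m (mom P) := by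
          unfold kin
          rw [Finset.mul_sum]
          refine Finset.sum_congr rfl fun i _ => ?_
          rw [Pi.smul_apply, norm_smul, Real.norm_eq_abs, mul_pow, sq_abs]; ring
        show ∑ i, ‖(s • mom P) i‖ ^ 2 / (2 * m i) - pot m q = E
        rw [h1, hs2, div_mul_cancel₀ _ hkin.ne', hKdef]; ring
    -- relative velocities
    have hrel : ∀ i j, cm m a b (vel m (q, s • mom P)) i - cm m a b (vel m (q, s • mom P)) j =
        s • rv m a b P i j := by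
      intro i j
      rw [hvel, cm_smul, cm_smul, ← smul_sub]
      rfl
    have hrelneg : ∀ i j, cm m a b (fun k => -vel m (q, s • mom P) k) i -
        cm m a b (fun k => -vel m (q, s • mom P) k) j = (-s) • rv m a b P i j := by
      intro i j
      have e1 : (fun k => -vel m (q, s • mom P) k) = fun k => (-s) • ((m k)⁻¹ • mom P k) := by
        rw [hvel]
        funext k
        rw [neg_smul]
      rw [e1, cm_smul, cm_smul, ← smul_sub]
      rfl
    have hwV : ∀ i j, P2 a b i j → Real.sqrt w2 ≤ s * ‖rv m a b P i j‖ := by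
      intro i j hP
      have h1 := hfast i j hP
      have h2 : Real.sqrt K ≤ s := Real.sqrt_le_iff.2 ⟨hs0, hs2K⟩
      rw [htK, Real.sqrt_mul hK.le]
      exact mul_le_mul h2 h1 (Real.sqrt_nonneg _) hs0
    have hgrs : ∀ i j, t * ‖cm m a b q i - cm m a b q j‖ ^ 2 ≤
        gr (cm m a b q i - cm m a b q j) (rv m a b P i j) → ∀ s' : ℝ, s' ^ 2 = s ^ 2 →
        Real.sqrt w2 ^ 2 * ‖cm m a b q i - cm m a b q j‖ ^ 2 ≤
        gr (cm m a b q i - cm m a b q j) (s' • rv m a b P i j) := by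
      intro i j h1 s' hs'
      rw [Real.sq_sqrt hw2pos.le, gr_smul, hs']
      have h3 : 0 ≤ t * ‖cm m a b q i - cm m a b q j‖ ^ 2 := by positivity
      calc w2 * ‖cm m a b q i - cm m a b q j‖ ^ 2
          = K * (t * ‖cm m a b q i - cm m a b q j‖ ^ 2) := by rw [htK]; ring
        _ ≤ s ^ 2 * (t * ‖cm m a b q i - cm m a b q j‖ ^ 2) := by gcongr
        _ ≤ _ := by gcongr
    have hgood : Good m a b (Real.sqrt w2) (q, vel m (q, s • mom P)) ∨
        Good m a b (Real.sqrt w2) (q, fun k => -vel m (q, s • mom P) k) := by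
      by_contra hno
      rw [not_or] at hno
      obtain ⟨hno1, hno2⟩ := hno
      unfold Good at hno1 hno2
      push Not at hno1 hno2
      obtain ⟨i, j, hij, h1⟩ := hno1
      obtain ⟨k, l, hkl, h2⟩ := hno2
      dsimp only at h1 h2
      rw [hrel] at h1
      rw [hrelneg] at h2
      have h1' := h1 (by
        rw [norm_smul, Real.norm_eq_abs, abs_of_nonneg hs0]; exact hwV i j hij)
      have h2' := h2 (by
        rw [norm_smul, Real.norm_eq_abs, abs_neg, abs_of_nonneg hs0]; exact hwV k l hkl)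
      have g1 : gr (cm m a b q i - cm m a b q j) (rv m a b P i j) <
          t * ‖cm m a b q i - cm m a b q j‖ ^ 2 := by
        by_contra hge
        push Not at hge
        exact absurd (hgrs i j hge s rfl) (not_le.2 h1'.1)
      have g2 : gr (cm m a b q k - cm m a b q l) (rv m a b P k l) <
          t * ‖cm m a b q k - cm m a b q l‖ ^ 2 := by
        by_contra hge
        push Not at hge
        exact absurd (hgrs k l hge (-s) (by ring)) (not_le.2 h2'.1)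
      by_cases hD : Diff a b i j k l
      · exact hn2 ((i, j), (k, l)) ⟨⟨hij, hkl, hD⟩, hRb P hP1, g1, g2⟩
      · have e1 := not_diff m a b i j k l hD q (fun k => (m k)⁻¹ • mom P k)
        have e2 := h1'.2
        have e3 := h2'.2
        rw [inner_smul_right] at e2 e3
        unfold rv at e2 e3
        rw [e1] at e3
        linarith
    exact wander2 m M μ hμ hμm hMdef.ge a b hab E hE ψ φ hφ
      (q, s • mom P) hsurf a c hac (Real.sqrt w2) (δ / 2) (Real.sqrt_pos.mpr hw2pos)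
      (by positivity) (by
        rw [Real.sq_sqrt hw2pos.le, hw2, ← hA]
        have : 64000 * A / δ * (δ / 2) = 32000 * A := by field_simp; ring
        rw [this]) hXge hgood (by show ‖q a - q b‖ ≤ δ / 2 / 64; linarith) hP2
  refine (measure_mono hincl).trans ?_
  have hst : 0 ≤ Real.sqrt t := Real.sqrt_nonneg _
  have hb1 : volume (⋃ p : Fin (n + 1) × Fin (n + 1), {P : Fin n → E3 | P2 a b p.1 p.2 ∧ ‖P‖ ≤ R ∧
        ‖rv m a b P p.1 p.2‖ < Real.sqrt t}) ≤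
      ENNReal.ofReal (((n : ℝ) + 1) ^ 2 * (C1 * Real.sqrt t ^ 3)) := by
    refine (measure_iUnion_fintype_le _ _).trans ?_
    have h1 : ∀ p ∈ (Finset.univ : Finset (Fin (n + 1) × Fin (n + 1))),
        volume {P : Fin n → E3 | P2 a b p.1 p.2 ∧ ‖P‖ ≤ R ∧ ‖rv m a b P p.1 p.2‖ < Real.sqrt t} ≤
          ENNReal.ofReal (C1 * Real.sqrt t ^ 3) := by
      intro p _
      by_cases hP : P2 a b p.1 p.2
      · exact (measure_mono fun P hP' => hP'.2).trans (hslow a b p.1 p.2 hab hP _ hst)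
      · have : {P : Fin n → E3 | P2 a b p.1 p.2 ∧ ‖P‖ ≤ R ∧
            ‖rv m a b P p.1 p.2‖ < Real.sqrt t} = ∅ := by
          ext P
          exact ⟨fun h => absurd h.1 hP, fun h => h.elim⟩
        rw [this, measure_empty]
        exact zero_le
    refine (Finset.sum_le_sum h1).trans (le_of_eq ?_)
    rw [Finset.sum_const, Finset.card_univ, Fintype.card_prod, Fintype.card_fin, nsmul_eq_mul,
      ENNReal.ofReal_mul (p := ((n : ℝ) + 1) ^ 2) (by positivity)]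
    congr 1
    rw [← ENNReal.ofReal_natCast]
    congr 1
    push_cast
    ring
  have hb2 : volume (⋃ p : (Fin (n + 1) × Fin (n + 1)) × (Fin (n + 1) × Fin (n + 1)),
        {P : Fin n → E3 | (P2 a b p.1.1 p.1.2 ∧ P2 a b p.2.1 p.2.2 ∧
          Diff a b p.1.1 p.1.2 p.2.1 p.2.2) ∧ ‖P‖ ≤ R ∧
          gr (cm m a b q p.1.1 - cm m a b q p.1.2) (rv m a b P p.1.1 p.1.2) <
            t * ‖cm m a b q p.1.1 - cm m a b q p.1.2‖ ^ 2 ∧
          gr (cm m a b q p.2.1 - cm m a b q p.2.2) (rv m a b P p.2.1 p.2.2) <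
            t * ‖cm m a b q p.2.1 - cm m a b q p.2.2‖ ^ 2}) ≤
      ENNReal.ofReal (((n : ℝ) + 1) ^ 4 * (C2 * t ^ 2)) := by
    refine (measure_iUnion_fintype_le _ _).trans ?_
    have h1 : ∀ p ∈ (Finset.univ : Finset ((Fin (n + 1) × Fin (n + 1)) ×
        (Fin (n + 1) × Fin (n + 1)))),
        volume {P : Fin n → E3 | (P2 a b p.1.1 p.1.2 ∧ P2 a b p.2.1 p.2.2 ∧
          Diff a b p.1.1 p.1.2 p.2.1 p.2.2) ∧ ‖P‖ ≤ R ∧
          gr (cm m a b q p.1.1 - cm m a b q p.1.2) (rv m a b P p.1.1 p.1.2) <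
            t * ‖cm m a b q p.1.1 - cm m a b q p.1.2‖ ^ 2 ∧
          gr (cm m a b q p.2.1 - cm m a b q p.2.2) (rv m a b P p.2.1 p.2.2) <
            t * ‖cm m a b q p.2.1 - cm m a b q p.2.2‖ ^ 2} ≤
          ENNReal.ofReal (C2 * t ^ 2) := by
      intro p _
      by_cases hP : P2 a b p.1.1 p.1.2 ∧ P2 a b p.2.1 p.2.2 ∧ Diff a b p.1.1 p.1.2 p.2.1 p.2.2
      · exact (measure_mono fun P hP' => hP'.2).trans
          (hslab a b p.1.1 p.1.2 p.2.1 p.2.2 hab hP.1 hP.2.1 hP.2.2 _ _ (hXne _ _ hP.1)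
            (hXne _ _ hP.2.1) t htpos.le)
      · refine le_trans (le_of_eq ?_) (zero_le (a := ENNReal.ofReal (C2 * t ^ 2)))
        rw [measure_eq_zero_iff_ae_notMem]
        exact Filter.Eventually.of_forall fun P h => hP h.1
    refine (Finset.sum_le_sum h1).trans (le_of_eq ?_)
    rw [Finset.sum_const, Finset.card_univ, Fintype.card_prod, Fintype.card_prod,
      Fintype.card_fin, nsmul_eq_mul, ENNReal.ofReal_mul (p := ((n : ℝ) + 1) ^ 4) (by positivity)]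
    congr 1
    rw [← ENNReal.ofReal_natCast]
    congr 1
    push_cast
    ring
  refine (measure_union_le _ _).trans ((add_le_add hb1 hb2).trans ?_)
  rw [← ENNReal.ofReal_add (by positivity) (by positivity)]
  have hsq : Real.sqrt t ^ 2 = t := Real.sq_sqrt htpos.le
  have hs1 : Real.sqrt t ≤ 1 := Real.sqrt_le_one.2 ht1
  have ht2 : t ^ 2 ≤ Real.sqrt t ^ 3 := by
    calc t ^ 2 = (Real.sqrt t ^ 2) ^ 2 := by rw [hsq]
      _ = Real.sqrt t ^ 3 * Real.sqrt t := by ring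
      _ ≤ Real.sqrt t ^ 3 * 1 := by gcongr
      _ = _ := mul_one _
  calc ENNReal.ofReal (((n : ℝ) + 1) ^ 2 * (C1 * Real.sqrt t ^ 3) +
        ((n : ℝ) + 1) ^ 4 * (C2 * t ^ 2))
      ≤ ENNReal.ofReal (Real.sqrt (C / (δ * K)) ^ 3 * v0) := by
        refine ENNReal.ofReal_le_ofReal ?_
        have h1 : ((n : ℝ) + 1) ^ 2 * (C1 * Real.sqrt t ^ 3) + ((n : ℝ) + 1) ^ 4 * (C2 * t ^ 2) ≤
            C3 * Real.sqrt t ^ 3 := by
          rw [hC3]
          have : ((n : ℝ) + 1) ^ 4 * (C2 * t ^ 2) ≤ ((n : ℝ) + 1) ^ 4 * (C2 * Real.sqrt t ^ 3) := by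
            gcongr
          linarith
        refine h1.trans ?_
        obtain ⟨y, hy⟩ : ∃ y : ℝ, y = C3 / v0 + 1 := ⟨_, rfl⟩
        have hy1 : 1 ≤ y := by
          rw [hy]
          have : 0 ≤ C3 / v0 := div_nonneg hC3p hv0pos.le
          linarith
        have h2 : Real.sqrt t * Real.sqrt y ≤ Real.sqrt (C / (δ * K)) := by
          rw [← Real.sqrt_mul htpos.le]
          refine Real.sqrt_le_sqrt ?_
          rw [ht, hw2, div_div, div_mul_eq_mul_div]
          gcongr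
          rw [hC, ← hy]
          nlinarith [sq_nonneg M]
        have h3 : (Real.sqrt t * Real.sqrt y) ^ 3 ≤ Real.sqrt (C / (δ * K)) ^ 3 := by gcongr
        have h4 : y ≤ Real.sqrt y ^ 3 := by
          have e1 : 1 ≤ Real.sqrt y := Real.one_le_sqrt.2 hy1
          have e2 : Real.sqrt y ^ 2 = y := Real.sq_sqrt (by linarith)
          calc y = Real.sqrt y ^ 2 * 1 := by rw [e2, mul_one]
            _ ≤ Real.sqrt y ^ 2 * Real.sqrt y := by gcongr
            _ = _ := by ring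
        have h5 : C3 ≤ y * v0 := by
          rw [hy, add_mul, div_mul_cancel₀ _ hv0pos.ne']
          linarith
        calc C3 * Real.sqrt t ^ 3 ≤ (y * v0) * Real.sqrt t ^ 3 := by gcongr
          _ ≤ (Real.sqrt y ^ 3 * v0) * Real.sqrt t ^ 3 := by gcongr
          _ = (Real.sqrt t * Real.sqrt y) ^ 3 * v0 := by ring
          _ ≤ _ := by gcongr
    _ = ENNReal.ofReal (Real.sqrt (C / (δ * K)) ^ 3) * ENNReal.ofReal v0 :=
        ENNReal.ofReal_mul (by positivity)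
    _ ≤ _ := by gcongr

end Pool.Agent.N775.NW
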