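import Pool.Agent.N775.NW.Base
import Pool.Agent.Y421.NW.Acc
import Pool.Agent.Y421.NW.Ener
import Pool.Agent.Y275.NW.Boot

set_option autoImplicit false

/-! Project NW2: the clusters move almost freely in the future (bootstrap argument), if the relative
velocities are transversal or outgoing. Adapted from `Pool.Agent.Y516.NW.step`, `curve`. -/

namespace Pool.Agent.N775.NW

open MeasureTheory Set Pool.Agent.Y516.NW

variable {N : ℕ}

/-- one step of the bootstrap -/
theorem step1 (hAcc : AccStm) (hEner : EnerStm)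
    (m : Fin N → ℝ) (M μ : ℝ) (hμ : 0 < μ) (hm : ∀ i, μ ≤ m i) (hM : ∑ i, m i ≤ M)
    (a b : Fin N) (hab : a ≠ b) (q v : ℝ → Cfg N) (c τ : ℝ → ℝ) (E : ℝ) (hE : E ≤ 0)
    (hmot : Mot m E q v c τ)
    (w δ : ℝ) (hw : 0 < w) (hδ : 0 < δ) (hC : 1000 * (M + M ^ 2 / μ) ≤ w ^ 2 * δ)
    (X V : Fin N → Fin N → E3)
    (hXdef : ∀ i j, X i j = cm m a b (q 0) i - cm m a b (q 0) j)
    (hVdef : ∀ i j, V i j = cm m a b (v 0) i - cm m a b (v 0) j)
    (hX : ∀ i j, P2 a b i j → δ ≤ ‖X i j‖)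
    (hL1 : ∀ i j, P2 a b i j → ∀ s : ℝ, 0 ≤ s → w * ‖X i j‖ ≤ ‖V i j‖ * ‖X i j + s • V i j‖)
    (hL2 : ∀ i j, P2 a b i j → ∀ s : ℝ, 0 ≤ s → s * w ≤ ‖X i j + s • V i j‖)
    (Θ θ : Fin N → Fin N → ℝ → ℝ)
    (hΘ : ∀ i j, P2 a b i j → ∀ s, HasDerivAt (Θ i j) (θ i j s) s)
    (hθ : ∀ i j, P2 a b i j → ∀ s, 0 ≤ s → 1 / ‖X i j + s • V i j‖ ^ 2 ≤ θ i j s)
    (hΘ' : ∀ i j, P2 a b i j → ∀ s, Θ i j s - Θ i j 0 ≤ Real.pi / (w * ‖X i j‖))
    (T : ℝ) (hT : 0 ≤ T)
    (hB1 : ∀ t, 0 ≤ t → t ≤ T → ∀ i j, P2 a b i j →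
      ‖(cm m a b (q t) i - cm m a b (q t) j) - X i j - τ t • V i j‖
        ≤ ‖X i j + τ t • V i j‖ / 2)
    (hB2 : ∀ t, 0 ≤ t → t ≤ T → ∀ i j, P2 a b i j →
      ‖q t a - q t b‖ ≤ ‖X i j + τ t • V i j‖ / 8) :
    (∀ t, 0 ≤ t → t ≤ T → ∀ i j, P2 a b i j →
      ‖(cm m a b (v t) i - cm m a b (v t) j) - V i j‖ ≤ w / 8) ∧
    (∀ i j, P2 a b i j →
      ‖(cm m a b (q T) i - cm m a b (q T) j) - X i j - τ T • V i j‖
        < ‖X i j + τ T • V i j‖ / 2) ∧
    (∀ i j, P2 a b i j → ‖q T a - q T b‖ < ‖X i j + τ T • V i j‖ / 8) := by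
  have hmpos : ∀ i, 0 < m i := fun i => hμ.trans_le (hm i)
  have hMpos : 0 < M := lt_of_lt_of_le (Finset.sum_pos (fun i _ => hmpos i) ⟨a, Finset.mem_univ _⟩) hM
  -- positivity
  have hXpos : ∀ i j, P2 a b i j → 0 < ‖X i j‖ := fun i j h => hδ.trans_le (hX i j h)
  have hDpos : ∀ i j, P2 a b i j → ∀ s : ℝ, 0 ≤ s → 0 < ‖X i j + s • V i j‖ := by
    intro i j h s hs
    have h1 := hL1 i j h s hs
    have h2 : 0 < w * ‖X i j‖ := mul_pos hw (hXpos i j h)
    by_contra hcon
    have h3 : ‖X i j + s • V i j‖ = 0 := le_antisymm (not_lt.mp hcon) (norm_nonneg _)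
    rw [h3, mul_zero] at h1
    linarith
  -- (A) distances
  have hA : ∀ t, 0 ≤ t → t ≤ T → ∀ i j, P2 a b i j →
      ‖X i j + τ t • V i j‖ / 4 ≤ ‖q t i - q t j‖ := by
    intro t h0 h1 i j hP
    have e1 := hB1 t h0 h1 i j hP
    have e2 := hB2 t h0 h1 i j hP
    have e3 := near m hmpos a b (q t) i
    have e4 := near m hmpos a b (q t) j
    set A := cm m a b (q t) i
    set B := cm m a b (q t) j
    have e5 : ‖X i j + τ t • V i j‖ ≤ ‖(A - B) - X i j - τ t • V i j‖ + ‖A - B‖ := by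
      have : X i j + τ t • V i j = -((A - B) - X i j - τ t • V i j) + (A - B) := by abel
      calc ‖X i j + τ t • V i j‖ = ‖-((A - B) - X i j - τ t • V i j) + (A - B)‖ := by
            rw [← this]
        _ ≤ ‖-((A - B) - X i j - τ t • V i j)‖ + ‖A - B‖ := norm_add_le _ _
        _ = _ := by rw [norm_neg]
    have e6 : ‖A - B‖ ≤ ‖q t i - A‖ + ‖q t i - q t j‖ + ‖q t j - B‖ := by
      have : A - B = -(q t i - A) + (q t i - q t j) + (q t j - B) := by abel
      calc ‖A - B‖ = ‖-(q t i - A) + (q t i - q t j) + (q t j - B)‖ := by rw [← this]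
        _ ≤ ‖-(q t i - A) + (q t i - q t j)‖ + ‖q t j - B‖ := norm_add_le _ _
        _ ≤ ‖-(q t i - A)‖ + ‖q t i - q t j‖ + ‖q t j - B‖ := by
            gcongr; exact norm_add_le _ _
        _ = _ := by rw [norm_neg]
    linarith
  -- (B) accelerations
  have hAc : ∀ t, 0 ≤ t → t ≤ T → ∀ k, ‖cm m a b (acc m (q t)) k‖ ≤
      ∑ j ∈ Finset.univ.filter (fun j => P2 a b k j), 16 * m j / ‖X k j + τ t • V k j‖ ^ 2 := by
    intro t h0 h1 k
    refine hAcc N m hmpos a b hab (q t) (fun i j => ‖X i j + τ t • V i j‖) ?_ ?_ k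
    · intro i j hP
      exact ⟨hDpos i j hP _ (hmot.nonneg h0), hA t h0 h1 i j hP⟩
    · intro j _ _
      have e1 : X b j = X a j := by rw [hXdef, hXdef, cm_ab]
      have e2 : V b j = V a j := by rw [hVdef, hVdef, cm_ab]
      simp only [e1, e2]
  -- (C) velocities of the clusters
  set Bk : Fin N → ℝ → ℝ := fun k t =>
    ∑ j ∈ Finset.univ.filter (fun j => P2 a b k j), 16 * m j * (Θ k j (τ t) - Θ k j 0) with hBk
  have hBkd : ∀ k t, HasDerivAt (Bk k)
      (∑ j ∈ Finset.univ.filter (fun j => P2 a b k j),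
        16 * m j * (θ k j (τ t) * c t)) t := by
    intro k t
    refine HasDerivAt.fun_sum fun j hj => ?_
    have hP : P2 a b k j := (Finset.mem_filter.mp hj).2
    exact (((hΘ k j hP (τ t)).comp t (hmot.τd t)).sub_const _).const_mul _
  have hvel : ∀ k t, 0 ≤ t → t ≤ T → ‖cm m a b (v t) k - cm m a b (v 0) k‖ ≤ Bk k t := by
    intro k
    have hd : ∀ t, HasDerivAt (fun s => cm m a b (v s) k - cm m a b (v 0) k)
        (c t • cm m a b (acc m (q t)) k) t := by
      intro t
      have := cm_hasDerivAt m a b v (fun i => c t • acc m (q t) i) t (hmot.vd t) k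
      rw [cm_smul] at this
      exact this.sub_const _
    have := image_norm_le_of_norm_deriv_right_le_deriv_boundary (a := 0) (b := T)
      (f := fun s => cm m a b (v s) k - cm m a b (v 0) k)
      (f' := fun t => c t • cm m a b (acc m (q t)) k)
      (fun t _ => (hd t).continuousAt.continuousWithinAt)
      (fun t _ => (hd t).hasDerivWithinAt)
      (B := Bk k)
      (B' := fun t => ∑ j ∈ Finset.univ.filter (fun j => P2 a b k j),
        16 * m j * (θ k j (τ t) * c t))
      (by simp [hBk, hmot.τ0]) (fun t => hBkd k t)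
      (by
        intro t ht
        rw [norm_smul, Real.norm_of_nonneg (hmot.cpos t).le]
        refine (mul_le_mul_of_nonneg_left (hAc t ht.1 ht.2.le k) (hmot.cpos t).le).trans ?_
        rw [Finset.mul_sum]
        refine Finset.sum_le_sum fun j hj => ?_
        have hP : P2 a b k j := (Finset.mem_filter.mp hj).2
        have e1 := hθ k j hP (τ t) (hmot.nonneg ht.1)
        have e2 : 0 ≤ 16 * m j * c t :=
          mul_nonneg (mul_nonneg (by norm_num) (hmpos j).le) (hmot.cpos t).le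
        calc c t * (16 * m j / ‖X k j + τ t • V k j‖ ^ 2)
            = (16 * m j * c t) * (1 / ‖X k j + τ t • V k j‖ ^ 2) := by ring
          _ ≤ (16 * m j * c t) * θ k j (τ t) := mul_le_mul_of_nonneg_left e1 e2
          _ = 16 * m j * (θ k j (τ t) * c t) := by ring)
    intro t h0 h1
    exact this ⟨h0, h1⟩
  -- (D) bound of Bk
  have hBkle : ∀ k t, Bk k t ≤ w / 16 := by
    intro k t
    have h1 : Bk k t ≤ ∑ j ∈ Finset.univ.filter (fun j => P2 a b k j),
        16 * m j * (Real.pi / (w * δ)) := by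
      refine Finset.sum_le_sum fun j hj => ?_
      have hP : P2 a b k j := (Finset.mem_filter.mp hj).2
      refine mul_le_mul_of_nonneg_left ((hΘ' k j hP (τ t)).trans ?_)
        (by have := hmpos j; positivity)
      gcongr
      exact hX k j hP
    have h2 : ∑ j ∈ Finset.univ.filter (fun j => P2 a b k j),
        16 * m j * (Real.pi / (w * δ)) ≤ 16 * M * (Real.pi / (w * δ)) := by
      rw [← Finset.sum_mul, ← Finset.mul_sum]
      gcongr
      exact (Finset.sum_le_sum_of_subset_of_nonneg (Finset.filter_subset _ _)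
        (fun j _ _ => (hmpos j).le)).trans hM
    have h3 : 16 * M * (Real.pi / (w * δ)) ≤ w / 16 := by
      have hpi : Real.pi < 3.15 := Real.pi_lt_d2
      have h4 : 0 ≤ M ^ 2 / μ := by positivity
      rw [mul_div_assoc', div_le_div_iff₀ (by positivity) (by norm_num)]
      have : 16 * M * Real.pi * 16 ≤ 1000 * (M + M ^ 2 / μ) := by nlinarith
      nlinarith
    linarith
  have hrel : ∀ t, 0 ≤ t → t ≤ T → ∀ i j, P2 a b i j →
      ‖(cm m a b (v t) i - cm m a b (v t) j) - V i j‖ ≤ w / 8 := by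
    intro t h0 h1 i j _
    have e1 := (hvel i t h0 h1).trans (hBkle i t)
    have e2 := (hvel j t h0 h1).trans (hBkle j t)
    have : (cm m a b (v t) i - cm m a b (v t) j) - V i j =
        (cm m a b (v t) i - cm m a b (v 0) i) - (cm m a b (v t) j - cm m a b (v 0) j) := by
      rw [hVdef]; abel
    rw [this]
    refine (norm_sub_le _ _).trans ?_
    linarith
  refine ⟨hrel, ?_, ?_⟩
  · -- positions
    intro i j hP
    have hd : ∀ t, HasDerivAt
        (fun s => (cm m a b (q s) i - cm m a b (q s) j) - X i j - τ s • V i j)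
        (c t • ((cm m a b (v t) i - cm m a b (v t) j) - V i j)) t := by
      intro t
      have e1 := cm_hasDerivAt m a b q (fun i => c t • v t i) t (hmot.qd t) i
      have e2 := cm_hasDerivAt m a b q (fun i => c t • v t i) t (hmot.qd t) j
      rw [cm_smul] at e1 e2
      have e3 := ((e1.sub e2).sub_const (X i j)).sub ((hmot.τd t).smul_const (V i j))
      refine e3.congr_deriv ?_
      rw [smul_sub, smul_sub]
    have := image_norm_le_of_norm_deriv_right_le_deriv_boundary (a := 0) (b := T)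
      (f := fun s => (cm m a b (q s) i - cm m a b (q s) j) - X i j - τ s • V i j)
      (f' := fun t => c t • ((cm m a b (v t) i - cm m a b (v t) j) - V i j))
      (fun t _ => (hd t).continuousAt.continuousWithinAt)
      (fun t _ => (hd t).hasDerivWithinAt)
      (B := fun t => w / 8 * τ t) (B' := fun t => w / 8 * c t)
      (by simp [hmot.τ0, hXdef]) (fun t => (hmot.τd t).const_mul _)
      (by
        intro t ht
        rw [norm_smul, Real.norm_of_nonneg (hmot.cpos t).le, mul_comm]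
        exact mul_le_mul_of_nonneg_right (hrel t ht.1 ht.2.le i j hP) (hmot.cpos t).le)
    have h1 := this (right_mem_Icc.mpr hT)
    have h2 := hL2 i j hP (τ T) (hmot.nonneg hT)
    have h3 := hDpos i j hP (τ T) (hmot.nonneg hT)
    have h1' : ‖cm m a b (q T) i - cm m a b (q T) j - X i j - τ T • V i j‖ ≤ w / 8 * τ T := h1
    nlinarith
  · -- the tight pair
    intro i j hP
    obtain ⟨⟨k, l⟩, hkl, hmax⟩ := Finset.exists_max_image
      (Finset.univ.filter (fun p : Fin N × Fin N => P2 a b p.1 p.2)) (fun p => ‖V p.1 p.2‖)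
      ⟨(i, j), Finset.mem_filter.mpr ⟨Finset.mem_univ _, hP⟩⟩
    have hPkl : P2 a b k l := (Finset.mem_filter.mp hkl).2
    have hmax' : ∀ i j, P2 a b i j → ‖V i j‖ ≤ ‖V k l‖ := fun i j h =>
      hmax (i, j) (Finset.mem_filter.mpr ⟨Finset.mem_univ _, h⟩)
    set Vm := ‖V k l‖ with hVm
    have hwV : w ≤ Vm := by
      have h1 := hL2 k l hPkl
      have h0 : 0 < ‖X k l‖ := hXpos k l hPkl
      by_contra hcon
      push Not at hcon
      -- large s gives a contradiction
      have h3 : 0 ≤ ‖X k l‖ / (w - Vm) + 1 := by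
        have : 0 < w - Vm := by linarith
        positivity
      have h2 := h1 (‖X k l‖ / (w - Vm) + 1) h3
      have h4 : ‖X k l + (‖X k l‖ / (w - Vm) + 1) • V k l‖ ≤
          ‖X k l‖ + (‖X k l‖ / (w - Vm) + 1) * Vm := by
        refine (norm_add_le _ _).trans ?_
        rw [norm_smul, Real.norm_of_nonneg h3]
      have h5 : (‖X k l‖ / (w - Vm) + 1) * (w - Vm) ≤ ‖X k l‖ := by linarith
      have h6 : 0 < w - Vm := by linarith
      rw [add_mul, div_mul_cancel₀ _ h6.ne'] at h5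
      linarith
    have hVmpos : 0 < Vm := hw.trans_le hwV
    set d := w * δ / Vm with hd
    have hdpos : 0 < d := by positivity
    have hDd : ∀ i j, P2 a b i j → ∀ s : ℝ, 0 ≤ s → d ≤ ‖X i j + s • V i j‖ := by
      intro i j h s hs
      rw [hd, div_le_iff₀ hVmpos]
      calc w * δ ≤ w * ‖X i j‖ := by gcongr; exact hX i j h
        _ ≤ ‖V i j‖ * ‖X i j + s • V i j‖ := hL1 i j h s hs
        _ ≤ Vm * ‖X i j + s • V i j‖ := by gcongr; exact hmax' i j h
        _ = _ := mul_comm _ _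
    have hu : 7 / 8 * Vm ≤ ‖cm m a b (v T) k - cm m a b (v T) l‖ := by
      have h1 := hrel T hT le_rfl k l hPkl
      have h2 : Vm ≤ ‖(cm m a b (v T) k - cm m a b (v T) l) - V k l‖
          + ‖cm m a b (v T) k - cm m a b (v T) l‖ := by
        have : V k l = -((cm m a b (v T) k - cm m a b (v T) l) - V k l)
          + (cm m a b (v T) k - cm m a b (v T) l) := by abel
        calc Vm = ‖V k l‖ := rfl
          _ = ‖-((cm m a b (v T) k - cm m a b (v T) l) - V k l)
            + (cm m a b (v T) k - cm m a b (v T) l)‖ := by rw [← this]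
          _ ≤ ‖-((cm m a b (v T) k - cm m a b (v T) l) - V k l)‖
            + ‖cm m a b (v T) k - cm m a b (v T) l‖ := norm_add_le _ _
          _ = _ := by rw [norm_neg]
      linarith
    have hfin := hEner N m M μ hμ hm hM a b hab (q T) (v T) E d (7 / 8 * Vm) hE hdpos
      (by positivity) (hmot.ne T) (hmot.en T)
      (fun i j h => le_trans (by have := hDd i j h (τ T) (hmot.nonneg hT); linarith) (hA T hT le_rfl i j h))
      k l hPkl hu
    have hdle : d ≤ ‖X i j + τ T • V i j‖ := hDd i j hP _ (hmot.nonneg hT)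
    refine lt_of_lt_of_le ?_ (div_le_div_of_nonneg_right hdle (by norm_num))
    -- numeric
    have hM2 : M ^ 2 * 1000 ≤ μ * (w ^ 2 * δ) := by
      have h1 : 1000 * (M ^ 2 / μ) ≤ w ^ 2 * δ := by nlinarith
      have h2 := mul_le_mul_of_nonneg_left h1 hμ.le
      have h3 : μ * (1000 * (M ^ 2 / μ)) = M ^ 2 * 1000 := by field_simp
      linarith
    have hdV : d * Vm = w * δ := by rw [hd]; field_simp
    have h2M : 2 * M ^ 2 / d ≤ μ * Vm ^ 2 / 500 := by
      rw [div_le_div_iff₀ hdpos (by norm_num)]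
      -- 2 M^2 * 500 <= mu Vm^2 d = mu Vm w delta ; mu w^2 delta <= mu w delta Vm
      have h1 : μ * Vm ^ 2 * d = μ * (Vm * (w * δ)) := by rw [← hdV]; ring
      rw [h1]
      have h2 : w ^ 2 * δ ≤ Vm * (w * δ) := by
        have : w * (w * δ) ≤ Vm * (w * δ) := by gcongr
        nlinarith
      have h3 : μ * (w ^ 2 * δ) ≤ μ * (Vm * (w * δ)) := mul_le_mul_of_nonneg_left h2 hμ.le
      linarith
    by_contra hcon
    push Not at hcon
    -- d / 8 ≤ r
    have h4 : d / 8 * (μ * (7 / 8 * Vm) ^ 2 / 4 - 2 * M ^ 2 / d) ≤ M ^ 2 := by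
      refine le_trans (mul_le_mul_of_nonneg_right hcon ?_) hfin
      have : μ * (7 / 8 * Vm) ^ 2 / 4 = μ * Vm ^ 2 * (49 / 256) := by ring
      have h5 : 0 < μ * Vm ^ 2 := by positivity
      linarith
    have h6 : d / 8 * (μ * Vm ^ 2 * (9 / 50)) ≤ M ^ 2 := by
      refine le_trans (mul_le_mul_of_nonneg_left ?_ (by positivity)) h4
      have : μ * (7 / 8 * Vm) ^ 2 / 4 = μ * Vm ^ 2 * (49 / 256) := by ring
      have h5 : 0 < μ * Vm ^ 2 := by positivity
      linarith
    have h7 : d / 8 * (μ * Vm ^ 2 * (9 / 50)) = μ * (Vm * (w * δ)) * (9 / 400) := by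
      rw [← hdV]; ring
    rw [h7] at h6
    have h8 : w ^ 2 * δ ≤ Vm * (w * δ) := by
      have : w * (w * δ) ≤ Vm * (w * δ) := by gcongr
      nlinarith
    have h9 : μ * (w ^ 2 * δ) ≤ μ * (Vm * (w * δ)) := mul_le_mul_of_nonneg_left h8 hμ.le
    have h10 : 0 < μ * (w ^ 2 * δ) := by positivity
    nlinarith


theorem curve1
    (m : Fin N → ℝ) (M μ : ℝ) (hμ : 0 < μ) (hm : ∀ i, μ ≤ m i) (hM : ∑ i, m i ≤ M)
    (a b : Fin N) (hab : a ≠ b) (q v : ℝ → Cfg N) (c τ : ℝ → ℝ) (E : ℝ) (hE : E ≤ 0)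
    (hmot : Mot m E q v c τ)
    (w δ : ℝ) (hw : 0 < w) (hδ : 0 < δ) (hC : 1000 * (M + M ^ 2 / μ) ≤ w ^ 2 * δ)
    (hX : ∀ i j, P2 a b i j → δ ≤ ‖cm m a b (q 0) i - cm m a b (q 0) j‖)
    (hG : ∀ i j, P2 a b i j →
      Out w (cm m a b (q 0) i - cm m a b (q 0) j) (cm m a b (v 0) i - cm m a b (v 0) j))
    (hr : ‖q 0 a - q 0 b‖ ≤ δ / 16) :
    ∀ t, 0 ≤ t → ∀ i j, P2 a b i j →
      ‖(cm m a b (v t) i - cm m a b (v t) j) - (cm m a b (v 0) i - cm m a b (v 0) j)‖
        ≤ w / 8 := by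
  set X : Fin N → Fin N → E3 := fun i j => cm m a b (q 0) i - cm m a b (q 0) j with hXdef
  set V : Fin N → Fin N → E3 := fun i j => cm m a b (v 0) i - cm m a b (v 0) j with hVdef
  have hne : ∀ i j, P2 a b i j → X i j ≠ 0 := fun i j h =>
    norm_pos_iff.mp (hδ.trans_le (hX i j h))
  have hL1 : ∀ i j, P2 a b i j → ∀ s : ℝ, 0 ≤ s → w * ‖X i j‖ ≤ ‖V i j‖ * ‖X i j + s • V i j‖ :=
    fun i j h => (line1 (X i j) (V i j) w hw (hne i j h) (hG i j h)).1
  have hL2 : ∀ i j, P2 a b i j → ∀ s : ℝ, 0 ≤ s → s * w ≤ ‖X i j + s • V i j‖ :=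
    fun i j h => (line1 (X i j) (V i j) w hw (hne i j h) (hG i j h)).2.1
  have hT : ∀ i j, ∃ Θ θ : ℝ → ℝ, P2 a b i j →
      (∀ s, HasDerivAt Θ (θ s) s) ∧ (∀ s, 0 ≤ s → 1 / ‖X i j + s • V i j‖ ^ 2 ≤ θ s) ∧
      ∀ s, Θ s - Θ 0 ≤ Real.pi / (w * ‖X i j‖) := by
    intro i j
    by_cases h : P2 a b i j
    · obtain ⟨Θ, θ, h1, h2, h3⟩ := (line1 (X i j) (V i j) w hw (hne i j h) (hG i j h)).2.2
      exact ⟨Θ, θ, fun _ => ⟨h1, h2, h3⟩⟩
    · exact ⟨fun _ => 0, fun _ => 0, fun h' => absurd h' h⟩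
  choose Θ θ hΘ using hT
  have hstep := fun (T : ℝ) (hT : 0 ≤ T) => step1 Pool.Agent.Y421.NW.accl Pool.Agent.Y421.NW.ener
    m M μ hμ hm hM a b hab q v c τ E hE
    hmot w δ hw hδ hC X V (fun _ _ => rfl) (fun _ _ => rfl) hX hL1 hL2 Θ θ
    (fun i j h => (hΘ i j h).1) (fun i j h => (hΘ i j h).2.1) (fun i j h => (hΘ i j h).2.2) T hT
  -- continuity
  have hτc : Continuous τ := continuous_iff_continuousAt.mpr fun t => (hmot.τd t).continuousAt
  have hqc : ∀ i, Continuous fun t => q t i := fun i =>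
    continuous_iff_continuousAt.mpr fun t => (hmot.qd t i).continuousAt
  have hcm : ∀ i, Continuous fun t => cm m a b (q t) i := fun i =>
    continuous_iff_continuousAt.mpr fun t =>
      (cm_hasDerivAt m a b q (fun i => c t • v t i) t (hmot.qd t) i).continuousAt
  have hDc : ∀ i j, Continuous fun t => ‖X i j + τ t • V i j‖ := fun i j =>
    (continuous_const.add (hτc.smul continuous_const)).norm
  let ι := {p : Fin N × Fin N // P2 a b p.1 p.2} × Bool
  let g : ι → ℝ → ℝ := fun α t =>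
    if α.2 then ‖X α.1.1.1 α.1.1.2 + τ t • V α.1.1.1 α.1.1.2‖ / 2
      - ‖(cm m a b (q t) α.1.1.1 - cm m a b (q t) α.1.1.2) - X α.1.1.1 α.1.1.2
        - τ t • V α.1.1.1 α.1.1.2‖
    else ‖X α.1.1.1 α.1.1.2 + τ t • V α.1.1.1 α.1.1.2‖ / 8 - ‖q t a - q t b‖
  have hg := Pool.Agent.Y275.NW.boot ι g
    (by
      rintro ⟨⟨⟨i, j⟩, hP⟩, _ | _⟩
      · exact ((hDc i j).div_const 8).sub ((hqc a).sub (hqc b)).norm
      · exact ((hDc i j).div_const 2).sub
          ((((hcm i).sub (hcm j)).sub continuous_const).sub (hτc.smul continuous_const)).norm)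
    (by
      rintro ⟨⟨⟨i, j⟩, hP⟩, _ | _⟩
      · have h1 := hX i j hP
        simp only [g, hmot.τ0, zero_smul, add_zero, Bool.false_eq_true, if_false]
        have : ‖X i j‖ = ‖cm m a b (q 0) i - cm m a b (q 0) j‖ := rfl
        rw [← this] at h1
        linarith
      · have h1 := hX i j hP
        have h2 : cm m a b (q 0) i - cm m a b (q 0) j - X i j = 0 := by simp [X]
        simp only [g, hmot.τ0, zero_smul, add_zero, if_true, sub_zero, h2, norm_zero]
        have : ‖X i j‖ = ‖cm m a b (q 0) i - cm m a b (q 0) j‖ := rfl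
        rw [← this] at h1
        linarith)
    (by
      intro T hT0 hall
      obtain ⟨_, h2, h3⟩ := hstep T hT0
        (fun t h0 h1 i j hP => by
          have := hall t h0 h1 (⟨(i, j), hP⟩, true)
          simp only [g, if_true] at this
          linarith)
        (fun t h0 h1 i j hP => by
          have := hall t h0 h1 (⟨(i, j), hP⟩, false)
          simp only [g, Bool.false_eq_true, if_false] at this
          linarith)
      rintro ⟨⟨⟨i, j⟩, hP⟩, _ | _⟩
      · have := h3 i j hP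
        simp only [g, Bool.false_eq_true, if_false]
        linarith
      · have := h2 i j hP
        simp only [g, if_true]
        linarith)
  intro t ht i j hP
  exact (hstep t ht
    (fun s h0 h1 i j hP => by
      have := hg s h0 (⟨(i, j), hP⟩, true)
      simp only [g, if_true] at this
      linarith)
    (fun s h0 h1 i j hP => by
      have := hg s h0 (⟨(i, j), hP⟩, false)
      simp only [g, Bool.false_eq_true, if_false] at this
      linarith)).1 t ht le_rfl i j hP


end Pool.Agent.N775.NW
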