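import Pool.Agent.Y516.NW.Stm

set_option autoImplicit false

/-! Project NW2 (MP_70f7a7_an): statements of the parts. -/

namespace Pool.Agent.N775.NW

open MeasureTheory Pool.Agent.Y516.NW

/-- the representative of the cluster of a body -/
def rep {N : ℕ} (a b i : Fin N) : Fin N := if i = b then a else i

/-- the two pairs of bodies belong to two different pairs of clusters -/
def Diff {N : ℕ} (a b i j k l : Fin N) : Prop :=
  ¬(rep a b i = rep a b k ∧ rep a b j = rep a b l) ∧
    ¬(rep a b i = rep a b l ∧ rep a b j = rep a b k)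

/-- NW2-SURJ: the relative velocities of two different pairs of clusters are independent. -/
def Surj2Stm : Prop :=
  ∀ (n : ℕ) (m : Fin (n + 1) → ℝ), (∀ i, 0 < m i) → ∀ a b : Fin (n + 1), a ≠ b →
    ∀ i j k l, P2 a b i j → P2 a b k l → Diff a b i j k l →
      ∃ V : (Fin n → E3) →ₗ[ℝ] E3 × E3, Function.Surjective V ∧
      ∀ P, V P = (cm m a b (fun k => (m k)⁻¹ • mom P k) i
          - cm m a b (fun k => (m k)⁻¹ • mom P k) j,
        cm m a b (fun k => (m k)⁻¹ • mom P k) k - cm m a b (fun k => (m k)⁻¹ • mom P k) l)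

/-- NW2-PUSH: image of Lebesgue measure on a ball under a surjective linear map. -/
def Push2Stm : Prop :=
  ∀ (n : ℕ) (V : (Fin n → E3) →ₗ[ℝ] E3 × E3), Function.Surjective V → ∀ R : ℝ,
    ∃ C : ℝ, 0 ≤ C ∧ ∀ A B : Set E3,
      volume {P : Fin n → E3 | ‖P‖ ≤ R ∧ (V P).1 ∈ A ∧ (V P).2 ∈ B} ≤
        ENNReal.ofReal C * (volume A * volume B)

end Pool.Agent.N775.NW
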