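import Pool.Agent.N775.NW.Wand
import Pool.Agent.Y438.NW.Pos

set_option autoImplicit false

/-! Project NW2: nonwandering points of the three-body problem. -/

namespace Pool.Agent.N775.NW

open MeasureTheory Set Pool.Agent.Y516.NW

theorem fin3 : ∀ a b c i : Fin 3, a ≠ b → a ≠ c → b ≠ c → i = a ∨ i = b ∨ i = c := by
  decide

theorem pairs3 (m : Fin 3 → ℝ) (a b c i j : Fin 3) (hab : a ≠ b) (hac : a ≠ c) (hbc : b ≠ c)
    (hP : P2 a b i j) :
    (∀ u : Cfg 3, cm m a b u i = cm m a b u a ∧ cm m a b u j = cm m a b u c) ∨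
    (∀ u : Cfg 3, cm m a b u i = cm m a b u c ∧ cm m a b u j = cm m a b u a) := by
  obtain ⟨h1, h2, h3⟩ := hP
  rcases fin3 a b c i hab hac hbc with rfl | rfl | rfl
  · rcases fin3 i b c j hab hac hbc with rfl | rfl | rfl
    · exact absurd rfl h1
    · exact absurd ⟨rfl, rfl⟩ h2
    · exact Or.inl fun u => ⟨rfl, rfl⟩
  · rcases fin3 a i c j hab hac hbc with rfl | rfl | rfl
    · exact absurd ⟨rfl, rfl⟩ h3
    · exact absurd rfl h1
    · exact Or.inl fun u => ⟨cm_ab m a i u, rfl⟩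
  · rcases fin3 a b i j hab hac hbc with rfl | rfl | rfl
    · exact Or.inr fun u => ⟨rfl, rfl⟩
    · exact Or.inr fun u => ⟨rfl, cm_ab m a j u⟩
    · exact absurd rfl h1

theorem cm_norm_le {N : ℕ} (m : Fin N → ℝ) (hm : ∀ i, 0 < m i) (a b : Fin N) (u : Cfg N) (B : ℝ)
    (hB : ∀ i, ‖u i‖ ≤ B) (i : Fin N) : ‖cm m a b u i‖ ≤ B := by
  unfold cm
  split_ifs with h
  · have hs : 0 < m a + m b := add_pos (hm a) (hm b)
    rw [norm_smul, Real.norm_of_nonneg (inv_nonneg.2 hs.le), inv_mul_le_iff₀ hs]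
    refine (norm_add_le _ _).trans ?_
    rw [norm_smul, norm_smul, Real.norm_of_nonneg (hm a).le, Real.norm_of_nonneg (hm b).le]
    have h1 := mul_le_mul_of_nonneg_left (hB a) (hm a).le
    have h2 := mul_le_mul_of_nonneg_left (hB b) (hm b).le
    linarith
  · exact hB i

theorem three (m : Fin 3 → ℝ) (hm : ∀ i, 0 < m i) :
    ∃ C : ℝ, 0 < C ∧ ∀ (E : ℝ) (ψ : Cfg 3 × Cfg 3 → ℝ)
      (φ : ℝ → Cfg 3 × Cfg 3 → Cfg 3 × Cfg 3), IsFl m E ψ φ →
      ∀ x ∈ Surf m E, NonW (Surf m E) φ x → ∀ a b c : Fin 3, a ≠ b → a ≠ c → b ≠ c →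
        ‖x.1 a - x.1 b‖ ≤ ‖x.1 a - x.1 c‖ → ‖x.1 a - x.1 b‖ ≤ ‖x.1 b - x.1 c‖ →
        ‖cm m a b x.1 a - x.1 c‖ * ‖cm m a b (vel m x) a - vel m x c‖ ^ 2 ≤ C := by
  obtain ⟨μ, hμ, hμm⟩ : ∃ μ : ℝ, 0 < μ ∧ ∀ i, μ ≤ m i := by
    obtain ⟨μi, _, hμi⟩ := Finset.exists_min_image Finset.univ m ⟨0, Finset.mem_univ _⟩
    exact ⟨m μi, hm μi, fun i => hμi i (Finset.mem_univ _)⟩
  obtain ⟨M, hMdef⟩ : ∃ M : ℝ, M = ∑ i, m i := ⟨_, rfl⟩
  have hM : 0 < M := by
    rw [hMdef]; exact Finset.sum_pos (fun i _ => hm i) ⟨0, Finset.mem_univ _⟩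
  refine ⟨32000 * (M + M ^ 2 / μ) + 256 * (M ^ 2 / μ), by positivity, ?_⟩
  intro E ψ φ hφ x hx hNW a b c hab hac hbc h1 h2
  have hquo : 0 ≤ M ^ 2 / μ := by positivity
  rcases le_or_gt E 0 with hE | hE
  swap
  · exact absurd hNW (Pool.Agent.Y438.NW.pos 3 m hm E hE ψ φ hφ x hx)
  obtain ⟨r, hr⟩ : ∃ r : ℝ, r = ‖x.1 a - x.1 b‖ := ⟨_, rfl⟩
  have hr0 : 0 < r := by rw [hr]; exact norm_pos_iff.2 (sub_ne_zero.2 (hx.1 a b hab))
  have hcx : ∀ u : Cfg 3, cm m a b u c = u c := by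
    intro u
    unfold cm
    rw [if_neg]
    rintro (h | h)
    · exact hac h.symm
    · exact hbc h.symm
  rcases le_or_gt ‖cm m a b x.1 a - x.1 c‖ (64 * r) with hX | hX
  · -- all distances are comparable
    have hdist : ∀ i j, i ≠ j → r ≤ ‖x.1 i - x.1 j‖ := by
      intro i j hij
      rw [← hr] at h1 h2
      rcases fin3 a b c i hab hac hbc with rfl | rfl | rfl <;>
      rcases fin3 _ _ _ j hab hac hbc with rfl | rfl | rfl
      · exact absurd rfl hij
      · exact hr.le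
      · exact h1
      · rw [norm_sub_rev]; exact hr.le
      · exact absurd rfl hij
      · exact h2
      · rw [norm_sub_rev]; exact h1
      · rw [norm_sub_rev]; exact h2
      · exact absurd rfl hij
    have hpot : ∑ i, ∑ j, m i * m j / ‖x.1 i - x.1 j‖ / 2 ≤ M ^ 2 / (2 * r) := by
      have e1 : ∀ i j, m i * m j / ‖x.1 i - x.1 j‖ / 2 ≤ m i * m j / (2 * r) := by
        intro i j
        have h5 : 0 < m i * m j := mul_pos (hm i) (hm j)
        by_cases hij : i = j
        · subst hij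
          rw [sub_self, norm_zero, div_zero, zero_div]
          positivity
        · rw [div_div, mul_comm _ (2 : ℝ)]
          gcongr
          exact hdist i j hij
      have e2 : ∑ i, ∑ j, m i * m j / (2 * r) = M ^ 2 / (2 * r) := by
        simp only [← Finset.sum_div, ← Finset.mul_sum, ← Finset.sum_mul, ← hMdef]
        rw [sq]
      rw [← e2]
      exact Finset.sum_le_sum fun i _ => Finset.sum_le_sum fun j _ => e1 i j
    have hkin : ∑ i, ‖x.2 i‖ ^ 2 / (2 * m i) ≤ M ^ 2 / (2 * r) := by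
      have := hx.2.2.2
      linarith
    have hv : ∀ i, ‖vel m x i‖ ≤ Real.sqrt (M ^ 2 / (μ * r)) := by
      intro i
      refine Real.le_sqrt_of_sq_le ?_
      have e1 : ‖x.2 i‖ ^ 2 / (2 * m i) ≤ M ^ 2 / (2 * r) :=
        (Finset.single_le_sum (f := fun i => ‖x.2 i‖ ^ 2 / (2 * m i))
          (fun i _ => by have := hm i; positivity) (Finset.mem_univ i)).trans hkin
      have e2 : ‖vel m x i‖ ^ 2 = (‖x.2 i‖ ^ 2 / (2 * m i)) * (2 / m i) := by
        have := (hm i).ne'
        unfold vel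
        rw [norm_smul, norm_inv, Real.norm_of_nonneg (hm i).le]
        field_simp
      rw [e2]
      calc ‖x.2 i‖ ^ 2 / (2 * m i) * (2 / m i) ≤ M ^ 2 / (2 * r) * (2 / μ) := by
            have := hm i
            gcongr
            exact hμm i
        _ = M ^ 2 / (μ * r) := by field_simp
    have hV : ‖cm m a b (vel m x) a - vel m x c‖ ≤ 2 * Real.sqrt (M ^ 2 / (μ * r)) := by
      refine (norm_sub_le _ _).trans ?_
      have e1 := cm_norm_le m hm a b (vel m x) _ hv a
      have e2 := hv c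
      linarith
    have hV2 : ‖cm m a b (vel m x) a - vel m x c‖ ^ 2 ≤ 4 * (M ^ 2 / (μ * r)) := by
      calc ‖cm m a b (vel m x) a - vel m x c‖ ^ 2 ≤ (2 * Real.sqrt (M ^ 2 / (μ * r))) ^ 2 := by
            gcongr
        _ = 4 * (M ^ 2 / (μ * r)) := by
            rw [mul_pow, Real.sq_sqrt (by positivity)]
            ring
    calc ‖cm m a b x.1 a - x.1 c‖ * ‖cm m a b (vel m x) a - vel m x c‖ ^ 2
        ≤ (64 * r) * (4 * (M ^ 2 / (μ * r))) := by gcongr
      _ = 256 * (M ^ 2 / μ) := by field_simp; ring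
      _ ≤ _ := by nlinarith
  · -- a tight pair
    by_contra hcon
    push Not at hcon
    obtain ⟨X, hXd⟩ : ∃ X : E3, X = cm m a b x.1 a - cm m a b x.1 c := ⟨_, rfl⟩
    obtain ⟨V, hVd⟩ : ∃ V : E3, V = cm m a b (vel m x) a - cm m a b (vel m x) c := ⟨_, rfl⟩
    have e1 : cm m a b x.1 a - x.1 c = X := by rw [hXd, hcx]
    have e2 : cm m a b (vel m x) a - vel m x c = V := by rw [hVd, hcx]
    rw [e1] at hX hcon
    rw [e2] at hcon
    have hXpos : 0 < ‖X‖ := by linarith
    have hVpos : 0 < ‖V‖ := by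
      refine lt_of_le_of_ne (norm_nonneg _) fun h0 => ?_
      rw [← h0] at hcon
      have : 0 < 32000 * (M + M ^ 2 / μ) + 256 * (M ^ 2 / μ) := by positivity
      nlinarith
    refine wander2 m M μ hμ hμm hMdef.ge a b hab E hE ψ φ hφ x hx a c
      ⟨hac, fun h => hbc h.2.symm, fun h => hab h.1⟩ ‖V‖ ‖X‖ hVpos hXpos ?_ ?_ ?_ ?_ hNW
    · nlinarith
    · intro i j hP
      rcases pairs3 m a b c i j hab hac hbc hP with h | h
      · rw [(h x.1).1, (h x.1).2, ← hXd]
      · rw [(h x.1).1, (h x.1).2, norm_sub_rev, ← hXd]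
    · rcases le_total 0 (inner ℝ X V) with hin | hin
      · left
        intro i j hP
        dsimp only
        rcases pairs3 m a b c i j hab hac hbc hP with h | h
        · rw [(h (vel m x)).1, (h (vel m x)).2, (h x.1).1, (h x.1).2, ← hXd, ← hVd]
          exact ⟨le_rfl, Or.inr hin⟩
        · rw [(h (vel m x)).1, (h (vel m x)).2, (h x.1).1, (h x.1).2, norm_sub_rev, ← hVd]
          refine ⟨le_rfl, Or.inr ?_⟩
          have e3 : cm m a b x.1 c - cm m a b x.1 a = -X := by rw [hXd, neg_sub]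
          have e4 : cm m a b (vel m x) c - cm m a b (vel m x) a = -V := by rw [hVd, neg_sub]
          rw [e3, e4, inner_neg_neg]
          exact hin
      · right
        intro i j hP
        have e5 : (fun k => -vel m x k) = fun k => (-1 : ℝ) • vel m x k := by
          funext k; rw [neg_one_smul]
        dsimp only
        rw [e5, cm_smul, cm_smul, ← smul_sub, neg_one_smul, norm_neg, inner_neg_right]
        rcases pairs3 m a b c i j hab hac hbc hP with h | h
        · rw [(h (vel m x)).1, (h (vel m x)).2, (h x.1).1, (h x.1).2, ← hXd, ← hVd]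
          exact ⟨le_rfl, Or.inr (by linarith)⟩
        · rw [(h (vel m x)).1, (h (vel m x)).2, (h x.1).1, (h x.1).2, norm_sub_rev
            (cm m a b (vel m x) c), ← hVd]
          refine ⟨le_rfl, Or.inr ?_⟩
          have e3 : cm m a b x.1 c - cm m a b x.1 a = -X := by rw [hXd, neg_sub]
          have e4 : cm m a b (vel m x) c - cm m a b (vel m x) a = -V := by rw [hVd, neg_sub]
          rw [e3, e4, inner_neg_neg]
          linarith
    · show ‖x.1 a - x.1 b‖ ≤ ‖X‖ / 64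
      rw [← hr]
      linarith

end Pool.Agent.N775.NW
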